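import Mathlib

/-!
Subset sums of a finite family of naturals contain a long interval, provided the quadratic form
`∑ ‖w i * α‖ ^ 2` is large outside a short major arc.
-/

set_option autoImplicit false
set_option linter.unusedSectionVars false

namespace Pool.Agent.Y960.Weird

open Finset

/-- distance to the nearest integer -/
noncomputable def nn (x : ℝ) : ℝ := |x - round x|

lemma nn_nonneg (x : ℝ) : 0 ≤ nn x := abs_nonneg _

lemma nn_le_half (x : ℝ) : nn x ≤ 1 / 2 := abs_sub_round x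

lemma nn_le (x : ℝ) (m : ℤ) : nn x ≤ |x - m| := round_le x m

lemma norm_one_add_exp (x : ℝ) :
    ‖(1 : ℂ) + Complex.exp (((2 * Real.pi * x : ℝ) : ℂ) * Complex.I)‖
      ≤ 2 * Real.exp (-2 * nn x ^ 2) := by
  have h0 : ‖(1 : ℂ) + Complex.exp (((2 * Real.pi * x : ℝ) : ℂ) * Complex.I)‖ ^ 2
      = 2 + 2 * Real.cos (2 * Real.pi * x) := by
    rw [← Complex.normSq_eq_norm_sq, Complex.normSq_apply]
    rw [Complex.add_re, Complex.add_im, Complex.exp_ofReal_mul_I_re, Complex.exp_ofReal_mul_I_im,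
      Complex.one_re, Complex.one_im]
    nlinarith [Real.sin_sq_add_cos_sq (2 * Real.pi * x)]
  have h1 : Real.cos (2 * Real.pi * x) ≤ 1 - 8 * nn x ^ 2 := by
    have e1 : Real.cos (2 * Real.pi * x) = Real.cos (2 * Real.pi * (x - round x)) := by
      have : 2 * Real.pi * (x - round x) = 2 * Real.pi * x - (round x : ℤ) * (2 * Real.pi) := by ring
      rw [this, Real.cos_sub_int_mul_two_pi]
    have e2 : |2 * Real.pi * (x - round x)| ≤ Real.pi := by
      rw [abs_mul, abs_of_pos (by positivity : (0 : ℝ) < 2 * Real.pi)]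
      have := abs_sub_round x
      nlinarith [Real.pi_pos]
    have e3 := Real.cos_le_one_sub_mul_cos_sq e2
    rw [e1]
    refine e3.trans (le_of_eq ?_)
    unfold nn
    rw [sq_abs]
    have hpi : Real.pi ≠ 0 := Real.pi_ne_zero
    field_simp
    ring
  have h2 : 1 - 4 * nn x ^ 2 ≤ Real.exp (-4 * nn x ^ 2) := by
    have := Real.add_one_le_exp (-4 * nn x ^ 2)
    linarith
  have h3 : ‖(1 : ℂ) + Complex.exp (((2 * Real.pi * x : ℝ) : ℂ) * Complex.I)‖ ^ 2
      ≤ (2 * Real.exp (-2 * nn x ^ 2)) ^ 2 := by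
    rw [h0, mul_pow, ← Real.exp_nat_mul]
    have : ((2 : ℕ) : ℝ) * (-2 * nn x ^ 2) = -4 * nn x ^ 2 := by push_cast; ring
    rw [this]
    nlinarith
  exact (pow_le_pow_iff_left₀ (norm_nonneg _) (by positivity) (by norm_num)).1 h3

lemma integral_exp_int (n : ℤ) :
    ∫ α in (-(1 / 2) : ℝ)..(1 / 2), Complex.exp (2 * Real.pi * n * Complex.I * α)
      = if n = 0 then 1 else 0 := by
  split_ifs with h
  · subst h
    simp
    norm_num
  · have hc : (2 * Real.pi * n * Complex.I : ℂ) ≠ 0 := by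
      have : (n : ℂ) ≠ 0 := by exact_mod_cast h
      have hpi : (Real.pi : ℂ) ≠ 0 := by exact_mod_cast Real.pi_ne_zero
      simp [this, hpi, Complex.I_ne_zero]
    rw [integral_exp_mul_complex hc]
    have e1 : (2 * Real.pi * n * Complex.I : ℂ) * ((1 / 2 : ℝ) : ℂ)
        = (2 * Real.pi * n * Complex.I : ℂ) * ((-(1 / 2) : ℝ) : ℂ) + n * (2 * Real.pi * Complex.I) := by
      push_cast; ring
    rw [e1, Complex.exp_add, Complex.exp_int_mul_two_pi_mul_I]
    simp

variable {ι : Type*} [DecidableEq ι]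

/-- number of subsets with sum `t` -/
noncomputable def rep (E : Finset ι) (w : ι → ℕ) (t : ℕ) : ℕ :=
  (E.powerset.filter (fun s => ∑ i ∈ s, w i = t)).card

noncomputable def FF (E : Finset ι) (w : ι → ℕ) (α : ℝ) : ℂ :=
  ∏ i ∈ E, (1 + Complex.exp (((2 * Real.pi * (w i * α) : ℝ) : ℂ) * Complex.I))

lemma continuous_FF (E : Finset ι) (w : ι → ℕ) : Continuous (FF E w) := by
  unfold FF
  fun_prop

lemma FF_eq_sum (E : Finset ι) (w : ι → ℕ) (α : ℝ) :
    FF E w α = ∑ s ∈ E.powerset, Complex.exp (2 * Real.pi * ((∑ i ∈ s, w i : ℕ) : ℤ) * Complex.I * α) := by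
  unfold FF
  rw [Finset.prod_one_add]
  refine Finset.sum_congr rfl fun s _ => ?_
  rw [← Complex.exp_sum]
  congr 1
  push_cast
  rw [Finset.mul_sum, Finset.sum_mul, Finset.sum_mul]
  refine Finset.sum_congr rfl fun i _ => ?_
  ring

lemma integral_FF (E : Finset ι) (w : ι → ℕ) (t : ℕ) :
    ∫ α in (-(1 / 2) : ℝ)..(1 / 2), FF E w α * Complex.exp (2 * Real.pi * (-(t : ℤ) : ℤ) * Complex.I * α)
      = (rep E w t : ℂ) := by
  have h1 : ∀ α : ℝ, FF E w α * Complex.exp (2 * Real.pi * (-(t : ℤ) : ℤ) * Complex.I * α)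
      = ∑ s ∈ E.powerset, Complex.exp (2 * Real.pi * (((∑ i ∈ s, w i : ℕ) : ℤ) - (t : ℤ) : ℤ) * Complex.I * α) := by
    intro α
    rw [FF_eq_sum, Finset.sum_mul]
    refine Finset.sum_congr rfl fun s _ => ?_
    rw [← Complex.exp_add]
    congr 1
    push_cast
    ring
  simp_rw [h1]
  rw [intervalIntegral.integral_finsetSum]
  · simp_rw [integral_exp_int]
    unfold rep
    rw [Finset.card_filter]
    push_cast
    refine Finset.sum_congr rfl fun s _ => ?_
    by_cases h : ∑ i ∈ s, w i = t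
    · rw [if_pos h, if_pos]
      rw [← h]; simp
    · rw [if_neg h, if_neg]
      intro h'
      apply h
      have h'' : (((∑ i ∈ s, w i : ℕ) : ℤ)) - (t : ℤ) = 0 := by
        push_cast
        exact h'
      have : ((∑ i ∈ s, w i : ℕ) : ℤ) = (t : ℤ) := by linarith
      exact_mod_cast this
  · intro s _
    apply Continuous.intervalIntegrable
    fun_prop

lemma norm_FF_le (E : Finset ι) (w : ι → ℕ) (α : ℝ) :
    ‖FF E w α‖ ≤ 2 ^ E.card * Real.exp (-2 * ∑ i ∈ E, nn (w i * α) ^ 2) := by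
  unfold FF
  rw [norm_prod]
  calc ∏ i ∈ E, ‖(1 + Complex.exp (((2 * Real.pi * (w i * α) : ℝ) : ℂ) * Complex.I) : ℂ)‖
      ≤ ∏ i ∈ E, (2 * Real.exp (-2 * nn (w i * α) ^ 2)) :=
        Finset.prod_le_prod (fun i _ => norm_nonneg _) (fun i _ => norm_one_add_exp _)
    _ = 2 ^ E.card * Real.exp (-2 * ∑ i ∈ E, nn (w i * α) ^ 2) := by
        rw [Finset.prod_mul_distrib, Finset.prod_const, ← Real.exp_sum, Finset.mul_sum]

lemma norm_FF_le' (E : Finset ι) (w : ι → ℕ) (α : ℝ) :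
    ‖FF E w α‖ ≤ 2 ^ E.card := by
  refine (norm_FF_le E w α).trans ?_
  have : Real.exp (-2 * ∑ i ∈ E, nn (w i * α) ^ 2) ≤ 1 := by
    rw [Real.exp_le_one_iff]
    have : 0 ≤ ∑ i ∈ E, nn (w i * α) ^ 2 := Finset.sum_nonneg fun i _ => by positivity
    linarith
  have h2 : (0 : ℝ) ≤ 2 ^ E.card := by positivity
  nlinarith

lemma norm_exp_diff (t t₀ : ℕ) (α : ℝ) :
    ‖Complex.exp (2 * Real.pi * (-(t : ℤ) : ℤ) * Complex.I * α)
      - Complex.exp (2 * Real.pi * (-(t₀ : ℤ) : ℤ) * Complex.I * α)‖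
      ≤ 2 * Real.pi * |(t : ℝ) - t₀| * |α| := by
  have e1 : Complex.exp (2 * Real.pi * (-(t : ℤ) : ℤ) * Complex.I * α)
      - Complex.exp (2 * Real.pi * (-(t₀ : ℤ) : ℤ) * Complex.I * α)
      = Complex.exp (((-(2 * Real.pi * t₀ * α) : ℝ) : ℂ) * Complex.I) *
        (Complex.exp (Complex.I * ((-(2 * Real.pi * ((t : ℝ) - t₀) * α) : ℝ) : ℂ)) - 1) := by
    rw [mul_sub, ← Complex.exp_add, mul_one]
    congr 1
    · congr 1
      push_cast
      ring
    · congr 1
      push_cast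
      ring
  rw [e1, norm_mul, Complex.norm_exp_ofReal_mul_I, one_mul]
  refine (Real.norm_exp_I_mul_ofReal_sub_one_le).trans (le_of_eq ?_)
  rw [Real.norm_eq_abs, abs_neg, abs_mul, abs_mul, abs_of_pos (by positivity : (0 : ℝ) < 2 * Real.pi)]

lemma norm_exp_diff' (t t₀ : ℕ) (α : ℝ) :
    ‖Complex.exp (2 * Real.pi * (-(t : ℤ) : ℤ) * Complex.I * α)
      - Complex.exp (2 * Real.pi * (-(t₀ : ℤ) : ℤ) * Complex.I * α)‖ ≤ 2 := by
  refine (norm_sub_le _ _).trans ?_
  have h : ∀ n : ℤ, ‖Complex.exp (2 * Real.pi * (n : ℤ) * Complex.I * α)‖ = 1 := by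
    intro n
    have : (2 * Real.pi * (n : ℤ) * Complex.I * α : ℂ) = ((2 * Real.pi * n * α : ℝ) : ℂ) * Complex.I := by
      push_cast; ring
    rw [this, Complex.norm_exp_ofReal_mul_I]
  rw [h, h]
  norm_num

theorem base_interval (E : Finset ι) (w : ι → ℕ) (A T₀ : ℝ) (L : ℕ)
    (hA : 0 ≤ A) (hA' : A ≤ 1 / 2)
    (hminor : ∀ α : ℝ, |α| ≤ 1 / 2 → A < |α| → T₀ ≤ ∑ i ∈ E, nn (w i * α) ^ 2)
    (h1 : 4 * Real.pi * L * A ^ 2 * ((∑ i ∈ E, w i : ℕ) + 1) ≤ 1 / 4)
    (h2 : 2 * Real.exp (-2 * T₀) * ((∑ i ∈ E, w i : ℕ) + 1) ≤ 1 / 4) :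
    ∃ t₀ : ℕ, t₀ ≤ ∑ i ∈ E, w i ∧ ∀ t : ℕ, t₀ ≤ t → t ≤ t₀ + L → ∃ s ⊆ E, ∑ i ∈ s, w i = t := by
  set S : ℕ := ∑ i ∈ E, w i with hS
  -- pigeonhole
  obtain ⟨t₀, ht₀, hr⟩ : ∃ t₀ ∈ Finset.range (S + 1),
      (2 : ℝ) ^ E.card / (S + 1) ≤ ((E.powerset.filter (fun s => ∑ i ∈ s, w i = t₀)).card : ℝ) := by
    apply Finset.exists_le_card_fiber_of_nsmul_le_card_of_maps_to
    · intro s hs
      rw [Finset.mem_range, Nat.lt_succ_iff]
      exact Finset.sum_le_sum_of_subset (Finset.mem_powerset.1 hs)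
    · exact ⟨0, by simp⟩
    · rw [Finset.card_range, Finset.card_powerset, nsmul_eq_mul]
      push_cast
      rw [mul_div_cancel₀]
      positivity
  refine ⟨t₀, Nat.lt_succ_iff.1 (Finset.mem_range.1 ht₀), fun t ht1 ht2 => ?_⟩
  have hSpos : (0 : ℝ) < (S : ℝ) + 1 := by positivity
  -- the difference
  have hdiff : ((rep E w t : ℂ) - (rep E w t₀ : ℂ)) = ∫ α in (-(1 / 2) : ℝ)..(1 / 2), FF E w α *
      (Complex.exp (2 * Real.pi * (-(t : ℤ) : ℤ) * Complex.I * α)
      - Complex.exp (2 * Real.pi * (-(t₀ : ℤ) : ℤ) * Complex.I * α)) := by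
    rw [← integral_FF, ← integral_FF, ← intervalIntegral.integral_sub]
    · refine intervalIntegral.integral_congr fun α _ => ?_
      ring
    · apply Continuous.intervalIntegrable
      have := continuous_FF E w
      fun_prop
    · apply Continuous.intervalIntegrable
      have := continuous_FF E w
      fun_prop
  set G : ℝ → ℂ := fun α => FF E w α *
      (Complex.exp (2 * Real.pi * (-(t : ℤ) : ℤ) * Complex.I * α)
      - Complex.exp (2 * Real.pi * (-(t₀ : ℤ) : ℤ) * Complex.I * α)) with hG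
  have hGc : Continuous G := by
    have := continuous_FF E w
    rw [hG]
    fun_prop
  have hGi : ∀ a b : ℝ, IntervalIntegrable G MeasureTheory.volume a b := fun a b =>
    hGc.intervalIntegrable a b
  have hL : |(t : ℝ) - t₀| ≤ L := by
    rw [abs_of_nonneg]
    · have : (t : ℝ) ≤ t₀ + L := by exact_mod_cast ht2
      linarith
    · have : (t₀ : ℝ) ≤ t := by exact_mod_cast ht1
      linarith
  have hmaj : ∀ α : ℝ, |α| ≤ A → ‖G α‖ ≤ 2 ^ E.card * (2 * Real.pi * L * A) := by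
    intro α hα
    have hGα : G α = FF E w α *
      (Complex.exp (2 * Real.pi * (-(t : ℤ) : ℤ) * Complex.I * α)
      - Complex.exp (2 * Real.pi * (-(t₀ : ℤ) : ℤ) * Complex.I * α)) := rfl
    rw [hGα, norm_mul]
    refine mul_le_mul (norm_FF_le' E w α) ((norm_exp_diff t t₀ α).trans ?_) (norm_nonneg _) (by positivity)
    have hpi := Real.pi_pos
    apply mul_le_mul _ hα (abs_nonneg _) (by positivity)
    apply mul_le_mul_of_nonneg_left hL (by positivity)
  have hmin : ∀ α : ℝ, |α| ≤ 1 / 2 → A < |α| → ‖G α‖ ≤ 2 ^ E.card * (2 * Real.exp (-2 * T₀)) := by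
    intro α hα hα'
    have hGα : G α = FF E w α *
      (Complex.exp (2 * Real.pi * (-(t : ℤ) : ℤ) * Complex.I * α)
      - Complex.exp (2 * Real.pi * (-(t₀ : ℤ) : ℤ) * Complex.I * α)) := rfl
    rw [hGα, norm_mul]
    have e1 : ‖FF E w α‖ ≤ 2 ^ E.card * Real.exp (-2 * T₀) := by
      refine (norm_FF_le E w α).trans ?_
      apply mul_le_mul_of_nonneg_left _ (by positivity)
      apply Real.exp_le_exp.2
      have := hminor α hα hα'
      linarith
    calc ‖FF E w α‖ * ‖_‖ ≤ (2 ^ E.card * Real.exp (-2 * T₀)) * 2 :=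
          mul_le_mul e1 (norm_exp_diff' t t₀ α) (norm_nonneg _) (by positivity)
      _ = _ := by ring
  have hsplit : ∫ α in (-(1 / 2) : ℝ)..(1 / 2), G α
      = (∫ α in (-(1 / 2) : ℝ)..(-A), G α) + (∫ α in (-A)..A, G α) + ∫ α in A..(1 / 2), G α := by
    rw [intervalIntegral.integral_add_adjacent_intervals (hGi _ _) (hGi _ _),
      intervalIntegral.integral_add_adjacent_intervals (hGi _ _) (hGi _ _)]
  have hb1 : ‖∫ α in (-(1 / 2) : ℝ)..(-A), G α‖ ≤ 2 ^ E.card * (2 * Real.exp (-2 * T₀)) * |-A - -(1 / 2)| := by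
    apply intervalIntegral.norm_integral_le_of_norm_le_const_ae
    have : ∀ᵐ x : ℝ, x ≠ -A := by
      have := MeasureTheory.compl_mem_ae_iff.2 (MeasureTheory.measure_singleton (μ := MeasureTheory.volume) (-A))
      filter_upwards [this] with x hx
      simpa using hx
    filter_upwards [this] with x hx hx'
    rw [Set.uIoc_of_le (by linarith)] at hx'
    have h3 : x < -A := lt_of_le_of_ne hx'.2 hx
    apply hmin
    · rw [abs_le]; constructor <;> linarith [hx'.1]
    · rw [lt_abs]; right; linarith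
  have hb3 : ‖∫ α in A..(1 / 2), G α‖ ≤ 2 ^ E.card * (2 * Real.exp (-2 * T₀)) * |1 / 2 - A| := by
    apply intervalIntegral.norm_integral_le_of_norm_le_const
    intro x hx
    rw [Set.uIoc_of_le hA'] at hx
    apply hmin
    · rw [abs_le]; constructor <;> linarith [hx.1, hx.2]
    · rw [lt_abs]; left; exact hx.1
  have hb2 : ‖∫ α in (-A)..A, G α‖ ≤ 2 ^ E.card * (2 * Real.pi * L * A) * |A - -A| := by
    apply intervalIntegral.norm_integral_le_of_norm_le_const
    intro x hx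
    rw [Set.uIoc_of_le (by linarith)] at hx
    apply hmaj
    rw [abs_le]; constructor <;> linarith [hx.1, hx.2]
  have hbound : ‖((rep E w t : ℂ) - (rep E w t₀ : ℂ))‖ ≤ 2 ^ E.card * (1 / 2) / (S + 1) := by
    rw [hdiff, hsplit]
    refine (norm_add_le _ _).trans ?_
    refine (add_le_add (norm_add_le _ _) le_rfl).trans ?_
    refine (add_le_add (add_le_add hb1 hb2) hb3).trans ?_
    have e1 : |-A - -(1 / 2)| = 1 / 2 - A := by
      rw [abs_of_nonneg (by linarith)]; ring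
    have e2 : |A - -A| = 2 * A := by
      rw [abs_of_nonneg (by linarith)]; ring
    have e3 : |1 / 2 - A| = 1 / 2 - A := abs_of_nonneg (by linarith)
    rw [e1, e2, e3, le_div_iff₀ hSpos]
    have e4 : (0 : ℝ) < 2 ^ E.card := by positivity
    have e5 : 2 * Real.exp (-2 * T₀) * (1 - 2 * A) ≤ 2 * Real.exp (-2 * T₀) := by
      have : 0 < Real.exp (-2 * T₀) := Real.exp_pos _
      nlinarith
    have e6 : (2 * Real.exp (-2 * T₀) * (1 - 2 * A) + 4 * Real.pi * L * A ^ 2) * (S + 1) ≤ 1 / 2 := by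
      have := mul_le_mul_of_nonneg_right e5 hSpos.le
      linarith
    have e7 := mul_le_mul_of_nonneg_left e6 e4.le
    calc _ = (2 : ℝ) ^ E.card * ((2 * Real.exp (-2 * T₀) * (1 - 2 * A) + 4 * Real.pi * L * A ^ 2) * (S + 1)) := by ring
      _ ≤ _ := e7
  have hpos : 0 < rep E w t := by
    by_contra hcon
    have h0 : rep E w t = 0 := by omega
    rw [h0] at hbound
    have e1 : ‖((0 : ℕ) : ℂ) - (rep E w t₀ : ℂ)‖ = (rep E w t₀ : ℝ) := by
      simp
    rw [e1] at hbound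
    have e2 : (2 : ℝ) ^ E.card / (S + 1) ≤ (rep E w t₀ : ℝ) := hr
    have e3 : (0 : ℝ) < 2 ^ E.card / (S + 1) := by positivity
    have e4 : (2 : ℝ) ^ E.card * (1 / 2) / (S + 1) = (2 ^ E.card / (S + 1)) / 2 := by ring
    rw [e4] at hbound
    linarith
  unfold rep at hpos
  obtain ⟨s, hs⟩ := Finset.card_pos.1 hpos
  rw [Finset.mem_filter, Finset.mem_powerset] at hs
  exact ⟨s, hs.1, hs.2⟩

end Pool.Agent.Y960.Weird
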