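import Mathlib
import Pool.Agent.Y960.Weird.Fourier

/-!
If `‖(∏ i ∈ A, p i) α‖` is small for all but few subsets `A`, then `α` is extremely close to an
integer.
-/

set_option autoImplicit false
set_option linter.unusedSectionVars false

namespace Pool.Agent.Y960.Weird

open Finset

open scoped FinsetFamily

lemma round_eq_of_abs_lt (y : ℝ) (m : ℤ) (h : |y - m| < 1 / 2) : round y = m := by
  have h1 := abs_sub_round y
  have h2 : |((round y - m : ℤ) : ℝ)| < 1 := by
    push_cast
    calc |(round y : ℝ) - m| = |(y - m) - (y - round y)| := by congr 1; ring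
      _ ≤ |y - m| + |y - round y| := abs_sub _ _
      _ < 1 := by linarith
  have h3 : |round y - m| < 1 := by exact_mod_cast h2
  have h4 := Int.abs_lt_one_iff.1 h3
  omega

lemma nn_nat_mul (p : ℕ) (x : ℝ) (h : p * nn x < 1 / 2) : nn (p * x) = p * nn x := by
  have e : |(p : ℝ) * x - ((p * round x : ℤ) : ℝ)| = p * nn x := by
    unfold nn
    push_cast
    rw [← mul_sub, abs_mul, abs_of_nonneg (Nat.cast_nonneg p)]
  have h1 : round ((p : ℝ) * x) = p * round x := by
    apply round_eq_of_abs_lt
    rw [e]; exact h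
  rw [nn, h1]
  exact e

lemma choose_mono_half {k : ℕ} {j i : ℕ} (h1 : j ≤ i) (h2 : i ≤ k / 2) :
    k.choose j ≤ k.choose i := by
  induction i, h1 using Nat.le_induction with
  | base => exact le_rfl
  | succ i hi ih =>
    exact (ih (by omega)).trans (Nat.choose_le_succ_of_lt_half_left (by omega))

lemma choose_le_of_mid {k j i : ℕ} (h1 : j ≤ i) (h2 : i + j ≤ k) :
    k.choose j ≤ k.choose i := by
  by_cases h : i ≤ k / 2
  · exact choose_mono_half h1 h
  · have e : k.choose i = k.choose (k - i) := (Nat.choose_symm (by omega)).symm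
    rw [e]
    apply choose_mono_half
    · omega
    · omega

variable {ι : Type*} [Fintype ι] [DecidableEq ι]

/-- product over a subset -/
def ee (p : ι → ℕ) (A : Finset ι) : ℕ := ∏ i ∈ A, p i

lemma ee_insert (p : ι → ℕ) {A : Finset ι} {a : ι} (h : a ∉ A) :
    ee p (insert a A) = p a * ee p A := Finset.prod_insert h

lemma ee_pos (p : ι → ℕ) (hp : ∀ i, (p i).Prime) (A : Finset ι) : 0 < ee p A :=
  Finset.prod_pos fun i _ => (hp i).pos

lemma ee_le (p : ι → ℕ) {X : ℕ} (hX : ∀ i, p i ≤ X) (A : Finset ι) : ee p A ≤ X ^ A.card :=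
  Finset.prod_le_pow_card _ _ _ fun i _ => hX i

lemma ee_mul_compl (p : ι → ℕ) (A : Finset ι) : ee p A * ee p Aᶜ = ee p univ :=
  Finset.prod_mul_prod_compl A p

lemma dvd_ee_iff (p : ι → ℕ) (hp : ∀ i, (p i).Prime) (hinj : Function.Injective p) (A : Finset ι)
    (i : ι) : p i ∣ ee p A ↔ i ∈ A := by
  unfold ee
  rw [(hp i).prime.dvd_finset_prod_iff]
  constructor
  · rintro ⟨a, ha, h⟩
    have : p i = p a := (Nat.prime_dvd_prime_iff_eq (hp i) (hp a)).1 h
    rw [hinj this]; exact ha
  · intro h
    exact ⟨i, h, dvd_rfl⟩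

/-- the strongly good sets of size `i` -/
noncomputable def Str (p : ι → ℕ) (α c : ℝ) (i : ℕ) : Finset (Finset ι) :=
  (powersetCard i univ).filter (fun A => nn (ee p A * α) ≤ ee p A * c)

noncomputable def Bad (p : ι → ℕ) (α δ : ℝ) : Finset (Finset ι) :=
  univ.filter (fun A : Finset ι => δ ≤ nn (ee p A * α))

lemma mem_Str {p : ι → ℕ} {α c : ℝ} {i : ℕ} {A : Finset ι} :
    A ∈ Str p α c i ↔ A.card = i ∧ nn (ee p A * α) ≤ ee p A * c := by
  unfold Str
  rw [mem_filter, mem_powersetCard]
  simp

lemma mem_Bad {p : ι → ℕ} {α δ : ℝ} {A : Finset ι} :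
    A ∈ Bad p α δ ↔ δ ≤ nn (ee p A * α) := by
  unfold Bad
  simp

/-- one step down -/
lemma shadow_sub (p : ι → ℕ) (hp : ∀ i, (p i).Prime) {X : ℕ} (hX0 : 0 < X) (hX : ∀ i, p i ≤ X)
    (α c : ℝ) (i : ℕ) :
    ∂ (Str p α c (i + 1)) ⊆ Str p α c i ∪ ((Bad p α (1 / (4 * X))).filter (fun A => A.card = i)) := by
  intro A hA
  rw [mem_shadow_iff_insert_mem] at hA
  obtain ⟨a, ha, hA⟩ := hA
  rw [mem_Str, card_insert_of_notMem ha] at hA
  obtain ⟨hcard, hA⟩ := hA
  have hcard' : A.card = i := by omega
  rw [mem_union]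
  by_cases hbad : A ∈ Bad p α (1 / (4 * X))
  · right
    rw [mem_filter]
    exact ⟨hbad, hcard'⟩
  · left
    rw [mem_Str]
    refine ⟨hcard', ?_⟩
    rw [mem_Bad, not_le] at hbad
    have hXR : (0 : ℝ) < X := by exact_mod_cast hX0
    have hpa : (0 : ℝ) < p a := by exact_mod_cast (hp a).pos
    have hpX : (p a : ℝ) ≤ X := by exact_mod_cast hX a
    have h1 : p a * nn (ee p A * α) < 1 / 2 := by
      have e1 : (p a : ℝ) * nn (ee p A * α) ≤ X * nn (ee p A * α) :=
        mul_le_mul_of_nonneg_right hpX (nn_nonneg _)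
      have e2 : (X : ℝ) * nn (ee p A * α) ≤ X * (1 / (4 * X)) :=
        mul_le_mul_of_nonneg_left hbad.le hXR.le
      have e3 : (X : ℝ) * (1 / (4 * X)) = 1 / 4 := by field_simp
      linarith
    have h2 := nn_nat_mul (p a) _ h1
    rw [ee_insert p ha] at hA
    push_cast at hA
    rw [mul_assoc, h2] at hA
    have h3 : (p a : ℝ) * nn (ee p A * α) ≤ p a * (ee p A * c) := by
      calc _ ≤ _ := hA
        _ = _ := by ring
    exact le_of_mul_le_mul_left h3 hpa

lemma density (p : ι → ℕ) (hp : ∀ i, (p i).Prime) {X : ℕ} (hX0 : 0 < X) (hX : ∀ i, p i ≤ X)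
    (α : ℝ) (j : ℕ) (hj : 2 * j ≤ Fintype.card ι) (l : ℕ) (hl : l + 2 * j ≤ Fintype.card ι) :
    1 - (((Bad p α (1 / (4 * X))).filter (fun A => Fintype.card ι - j - l ≤ A.card)).card : ℝ)
        / (Fintype.card ι).choose j ≤
      ((Str p α (1 / (4 * X) * X ^ j / ee p univ) (Fintype.card ι - j - l)).card : ℝ)
        / (Fintype.card ι).choose (Fintype.card ι - j - l) := by
  set k := Fintype.card ι with hk
  have hXR : (0 : ℝ) < X := by exact_mod_cast hX0
  have hNpos : (0 : ℝ) < ee p univ := by exact_mod_cast ee_pos p hp univ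
  have hCpos : (0 : ℝ) < k.choose j := by exact_mod_cast Nat.choose_pos (by omega)
  induction l with
  | zero =>
    rw [Nat.sub_zero]
    have hC : k.choose (k - j) = k.choose j := Nat.choose_symm (by omega)
    rw [hC, sub_le_iff_le_add, ← add_div, le_div_iff₀ hCpos, one_mul]
    have hsub : powersetCard (k - j) (univ : Finset ι) ⊆
        Str p α (1 / (4 * X) * X ^ j / ee p univ) (k - j) ∪
        ((Bad p α (1 / (4 * X))).filter (fun A => k - j ≤ A.card)) := by
      intro A hA
      rw [mem_powersetCard] at hA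
      rw [mem_union]
      by_cases hbad : A ∈ Bad p α (1 / (4 * X))
      · right
        rw [mem_filter]
        exact ⟨hbad, hA.2.ge⟩
      · left
        rw [mem_Str]
        refine ⟨hA.2, ?_⟩
        rw [mem_Bad, not_le] at hbad
        refine hbad.le.trans ?_
        have h1 : ee p univ ≤ ee p A * X ^ j := by
          rw [← ee_mul_compl p A]
          apply Nat.mul_le_mul_left
          have h2 := ee_le p hX Aᶜ
          rw [card_compl, hA.2, ← hk] at h2
          have h3 : k - (k - j) = j := by omega
          rwa [h3] at h2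
        have h2 : (ee p univ : ℝ) ≤ ee p A * X ^ j := by exact_mod_cast h1
        have h3 : (ee p A : ℝ) * (1 / (4 * X) * X ^ j / ee p univ)
          = (1 / (4 * X)) * ((ee p A * X ^ j) / ee p univ) := by ring
        rw [h3]
        apply le_mul_of_one_le_right (by positivity)
        rw [le_div_iff₀ hNpos, one_mul]
        exact h2
    have h1 := card_le_card hsub
    rw [card_powersetCard, card_univ, ← hk, hC] at h1
    have h2 := h1.trans (card_union_le _ _)
    exact_mod_cast h2
  | succ l ih =>
    have ih' := ih (by omega)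
    have e : k - j - l = (k - j - (l + 1)) + 1 := by omega
    set i := k - j - (l + 1) with hi
    rw [e] at ih'
    have hlym := Finset.local_lubell_yamamoto_meshalkin_inequality_div (𝕜 := ℝ)
      (𝒜 := Str p α (1 / (4 * X) * X ^ j / ee p univ) (i + 1)) (r := i + 1) (by omega)
      (fun A hA => (mem_Str.1 hA).1)
    rw [← hk, Nat.add_sub_cancel] at hlym
    have h1 := card_le_card (shadow_sub p hp hX0 hX α (1 / (4 * X) * X ^ j / ee p univ) i)
    have h2 := h1.trans (card_union_le _ _)
    have hCi : k.choose j ≤ k.choose i := choose_le_of_mid (by omega) (by omega)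
    have hCi' : (k.choose j : ℝ) ≤ k.choose i := by exact_mod_cast hCi
    have hCipos : (0 : ℝ) < k.choose i := lt_of_lt_of_le hCpos hCi'
    have h3 : ((∂ (Str p α (1 / (4 * X) * X ^ j / ee p univ) (i + 1))).card : ℝ) / k.choose i
        ≤ ((Str p α (1 / (4 * X) * X ^ j / ee p univ) i).card : ℝ) / k.choose i
          + (((Bad p α (1 / (4 * X))).filter (fun A => A.card = i)).card : ℝ) / k.choose j := by
      calc ((∂ (Str p α (1 / (4 * X) * X ^ j / ee p univ) (i + 1))).card : ℝ) / k.choose i
          ≤ (((Str p α (1 / (4 * X) * X ^ j / ee p univ) i).card : ℝ)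
            + (((Bad p α (1 / (4 * X))).filter (fun A => A.card = i)).card : ℝ)) / k.choose i := by
            apply div_le_div_of_nonneg_right _ hCipos.le
            exact_mod_cast h2
        _ = ((Str p α (1 / (4 * X) * X ^ j / ee p univ) i).card : ℝ) / k.choose i
            + (((Bad p α (1 / (4 * X))).filter (fun A => A.card = i)).card : ℝ) / k.choose i := by
            rw [add_div]
        _ ≤ _ := by
            gcongr
    have h4 : (((Bad p α (1 / (4 * X))).filter (fun A => i ≤ A.card)).card : ℝ)
        = (((Bad p α (1 / (4 * X))).filter (fun A => i + 1 ≤ A.card)).card : ℝ)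
          + (((Bad p α (1 / (4 * X))).filter (fun A => A.card = i)).card : ℝ) := by
      rw [← Nat.cast_add, ← card_union_of_disjoint]
      · congr 2
        ext A
        simp only [mem_filter, mem_union]
        constructor
        · rintro ⟨h1, h2⟩
          rcases Nat.lt_or_ge i A.card with h3 | h3
          · left; exact ⟨h1, h3⟩
          · right; exact ⟨h1, by omega⟩
        · rintro (⟨h1, h2⟩ | ⟨h1, h2⟩)
          · exact ⟨h1, by omega⟩
          · exact ⟨h1, by omega⟩
      · rw [disjoint_left]
        intro A hA hB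
        rw [mem_filter] at hA hB
        omega
    rw [h4, add_div]
    linarith

theorem cube_lemma (p : ι → ℕ) (hp : ∀ i, (p i).Prime) (hinj : Function.Injective p) {X : ℕ}
    (hX0 : 0 < X) (hX : ∀ i, p i ≤ X) (α : ℝ) (j : ℕ) (hj : 2 * j ≤ Fintype.card ι)
    (hN : X ^ (3 * j) < 2 * X * ee p univ)
    (hBad : 2 * (Bad p α (1 / (4 * X))).card < (Fintype.card ι).choose j) :
    nn α ≤ 1 / (4 * X) * X ^ j / ee p univ := by
  set k := Fintype.card ι with hk
  set c : ℝ := 1 / (4 * X) * X ^ j / ee p univ with hc
  have hXR : (0 : ℝ) < X := by exact_mod_cast hX0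
  have hNpos : (0 : ℝ) < ee p univ := by exact_mod_cast ee_pos p hp univ
  have hCpos : (0 : ℝ) < k.choose j := by exact_mod_cast Nat.choose_pos (by omega)
  have hdens := density p hp hX0 hX α j hj (k - 2 * j) (by omega)
  have e1 : k - j - (k - 2 * j) = j := by omega
  rw [← hk, e1, ← hc] at hdens
  have hBad' : 2 * (((Bad p α (1 / (4 * X))).filter (fun A => j ≤ A.card)).card : ℝ) < k.choose j := by
    have h1 : ((Bad p α (1 / (4 * X))).filter (fun A => j ≤ A.card)).card ≤ (Bad p α (1 / (4 * X))).card :=
      card_le_card (filter_subset _ _)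
    have h2 : 2 * ((Bad p α (1 / (4 * X))).filter (fun A => j ≤ A.card)).card < k.choose j := by omega
    exact_mod_cast h2
  have hmain : (k.choose j : ℝ) < 2 * (Str p α c j).card := by
    have h1 : 1 - (((Bad p α (1 / (4 * X))).filter (fun A => j ≤ A.card)).card : ℝ) / k.choose j
      = (k.choose j - (((Bad p α (1 / (4 * X))).filter (fun A => j ≤ A.card)).card : ℝ)) / k.choose j := by
      field_simp
    rw [h1, div_le_div_iff_of_pos_right hCpos] at hdens
    linarith
  have hmainN : k.choose j < 2 * (Str p α c j).card := by exact_mod_cast hmain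
  -- pairwise relation
  have hrel : ∀ A ∈ Str p α c j, ∀ B ∈ Str p α c j,
      round ((ee p A : ℝ) * α) * (ee p B : ℤ) = round ((ee p B : ℝ) * α) * (ee p A : ℤ) := by
    intro A hA B hB
    rw [mem_Str] at hA hB
    have hA0 : (0 : ℝ) < ee p A := by exact_mod_cast ee_pos p hp A
    have hB0 : (0 : ℝ) < ee p B := by exact_mod_cast ee_pos p hp B
    have hAX : (ee p A : ℝ) ≤ X ^ j := by
      have := ee_le p hX A
      rw [hA.1] at this
      exact_mod_cast this
    have hBX : (ee p B : ℝ) ≤ X ^ j := by
      have := ee_le p hX B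
      rw [hB.1] at this
      exact_mod_cast this
    have hc0 : 0 ≤ c := by rw [hc]; positivity
    have h1 : |((round ((ee p A : ℝ) * α) * (ee p B : ℤ) - round ((ee p B : ℝ) * α) * (ee p A : ℤ) : ℤ) : ℝ)|
        < 1 := by
      push_cast
      have e2 : (round ((ee p A : ℝ) * α) : ℝ) * ee p B - round ((ee p B : ℝ) * α) * ee p A
        = ee p A * ((ee p B : ℝ) * α - round ((ee p B : ℝ) * α))
          - ee p B * ((ee p A : ℝ) * α - round ((ee p A : ℝ) * α)) := by ring
      rw [e2]
      calc |(ee p A : ℝ) * ((ee p B : ℝ) * α - round ((ee p B : ℝ) * α))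
          - ee p B * ((ee p A : ℝ) * α - round ((ee p A : ℝ) * α))|
          ≤ |(ee p A : ℝ) * ((ee p B : ℝ) * α - round ((ee p B : ℝ) * α))|
            + |ee p B * ((ee p A : ℝ) * α - round ((ee p A : ℝ) * α))| := abs_sub _ _
        _ = ee p A * nn (ee p B * α) + ee p B * nn (ee p A * α) := by
            rw [abs_mul, abs_mul, abs_of_pos hA0, abs_of_pos hB0]; rfl
        _ ≤ ee p A * (ee p B * c) + ee p B * (ee p A * c) :=
            add_le_add (mul_le_mul_of_nonneg_left hB.2 hA0.le) (mul_le_mul_of_nonneg_left hA.2 hB0.le)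
        _ = (ee p A * ee p B) * (2 * c) := by ring
        _ ≤ (X ^ j * X ^ j) * (2 * c) := by
            apply mul_le_mul_of_nonneg_right _ (by linarith)
            exact mul_le_mul hAX hBX hB0.le (by positivity)
        _ = X ^ (3 * j) / (2 * X * ee p univ) := by
            rw [hc]
            have : (X : ℝ) ^ (3 * j) = X ^ j * X ^ j * X ^ j := by ring
            rw [this]
            field_simp
            ring
        _ < 1 := by
            rw [div_lt_one (by positivity)]
            exact_mod_cast hN
    have h2 : |round ((ee p A : ℝ) * α) * (ee p B : ℤ) - round ((ee p B : ℝ) * α) * (ee p A : ℤ)| < 1 := by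
      exact_mod_cast h1
    have h3 := Int.abs_lt_one_iff.1 h2
    omega
  obtain ⟨A, hA⟩ : (Str p α c j).Nonempty := by
    rw [← card_pos]; omega
  -- every prime of `A` divides the numerator
  have hdiv : (ee p A : ℤ) ∣ round ((ee p A : ℝ) * α) := by
    have h1 : ∀ i ∈ A, (p i : ℤ) ∣ round ((ee p A : ℝ) * α) := by
      intro i hi
      obtain ⟨B, hB, hiB⟩ : ∃ B ∈ Str p α c j, i ∉ B := by
        by_contra hcon
        push Not at hcon
        have hj0 : 0 < j := by
          have := (mem_Str.1 hA).1
          rw [← this]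
          exact card_pos.2 ⟨i, hi⟩
        have hinj' : (Str p α c j).card ≤ (powersetCard (j - 1) (univ.erase i)).card := by
          apply card_le_card_of_injOn (fun B => B.erase i)
          · intro B hB
            have hB' : B ∈ Str p α c j := hB
            rw [mem_coe, mem_powersetCard]
            refine ⟨erase_subset_erase _ (subset_univ _), ?_⟩
            rw [card_erase_of_mem (hcon B hB'), (mem_Str.1 hB').1]
          · intro B hB C hC hBC
            have hB' := hcon B hB
            have hC' := hcon C hC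
            simp only at hBC
            rw [← insert_erase hB', ← insert_erase hC', hBC]
        rw [card_powersetCard, card_erase_of_mem (mem_univ i), card_univ, ← hk] at hinj'
        -- choose (k-1) (j-1) * k = choose k j * j
        have h2 : k * (k - 1).choose (j - 1) = k.choose j * j := by
          have := Nat.add_one_mul_choose_eq (k - 1) (j - 1)
          have e2 : k - 1 + 1 = k := by omega
          have e3 : j - 1 + 1 = j := by omega
          rw [e2, e3] at this
          exact this
        have h3 : 2 * (k - 1).choose (j - 1) ≤ k.choose j := by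
          have h4 : k * (2 * (k - 1).choose (j - 1)) ≤ k * k.choose j := by
            calc k * (2 * (k - 1).choose (j - 1)) = 2 * (k * (k - 1).choose (j - 1)) := by ring
              _ = 2 * (k.choose j * j) := by rw [h2]
              _ = (2 * j) * k.choose j := by ring
              _ ≤ k * k.choose j := Nat.mul_le_mul_right _ hj
          exact Nat.le_of_mul_le_mul_left h4 (by omega)
        omega
      have h2 := hrel A hA B hB
      have h3 : (p i : ℤ) ∣ round ((ee p A : ℝ) * α) * (ee p B : ℤ) := by
        rw [h2]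
        apply Dvd.dvd.mul_left
        exact_mod_cast (dvd_ee_iff p hp hinj A i).2 hi
      have h4 : ¬ (p i : ℤ) ∣ (ee p B : ℤ) := by
        intro h
        have : p i ∣ ee p B := by exact_mod_cast h
        exact hiB ((dvd_ee_iff p hp hinj B i).1 this)
      exact ((Nat.prime_iff_prime_int.1 (hp i)).dvd_or_dvd h3).resolve_right h4
    have h2 : (ee p A : ℤ) = ∏ i ∈ A, (p i : ℤ) := by unfold ee; push_cast; rfl
    rw [h2]
    apply Finset.prod_dvd_of_coprime
    · intro a _ b _ hab
      show IsCoprime (p a : ℤ) (p b : ℤ)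
      rw [Nat.isCoprime_iff_coprime]
      exact (Nat.coprime_primes (hp a) (hp b)).2 (fun h => hab (hinj h))
    · exact h1
  obtain ⟨m, hm⟩ := hdiv
  have hA' := mem_Str.1 hA
  have hA0 : (0 : ℝ) < ee p A := by exact_mod_cast ee_pos p hp A
  have h1 : nn α ≤ |α - m| := nn_le α m
  have h2 : (ee p A : ℝ) * |α - m| = nn (ee p A * α) := by
    unfold nn
    rw [hm]
    push_cast
    rw [← mul_sub, abs_mul, abs_of_pos hA0]
  have h3 : (ee p A : ℝ) * |α - m| ≤ ee p A * c := by rw [h2]; exact hA'.2
  exact h1.trans (le_of_mul_le_mul_left h3 hA0)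

end Pool.Agent.Y960.Weird
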