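import Mathlib
import Pool.Agent.Y960.Weird.Cube

/-!
Subset sums of the divisors of a product of many distinct primes contain a long interval; greedy
extension of an interval.
-/

set_option autoImplicit false
set_option linter.unusedSectionVars false

namespace Pool.Agent.Y960.Weird

open Finset

variable {ι : Type*} [Fintype ι] [DecidableEq ι]

lemma abs_le_nn {α : ℝ} (h : |α| ≤ 1 / 2) : |α| ≤ nn α := by
  unfold nn
  generalize round α = m
  by_cases hm : m = 0
  · simp [hm]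
  · have h1 : (1 : ℝ) ≤ |(m : ℝ)| := by
      have : 1 ≤ |m| := Int.one_le_abs hm
      exact_mod_cast this
    have h2 : |(m : ℝ)| ≤ |α - m| + |α| := by
      calc |(m : ℝ)| = |α - (α - m)| := by congr 1; ring
        _ ≤ |α| + |α - m| := abs_sub _ _
        _ = _ := by ring
    linarith

theorem base_primes (p : ι → ℕ) (hp : ∀ i, (p i).Prime) (hinj : Function.Injective p) {X j : ℕ}
    (hX2 : 2 ≤ X) (hX : ∀ i, p i ≤ X) (hj : 2 * j ≤ Fintype.card ι)
    (hN : X ^ (3 * j) < 2 * X * ee p univ)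
    (hk : 32 * X ^ 4 ≤ (Fintype.card ι).choose j)
    (hS : 4 * ((∑ A : Finset ι, ee p A) + 1) ≤ X ^ 2 * ee p univ)
    (hcard : Fintype.card ι ≤ X)
    (L : ℕ) (hL : L * X ^ (2 * j) ≤ ee p univ) :
    ∃ t₀ : ℕ, t₀ ≤ ∑ A : Finset ι, ee p A ∧ ∀ t : ℕ, t₀ ≤ t → t ≤ t₀ + L →
      ∃ s : Finset (Finset ι), ∑ A ∈ s, ee p A = t := by
  have hX0 : 0 < X := by omega
  have hXR : (2 : ℝ) ≤ X := by exact_mod_cast hX2
  have hXpos : (0 : ℝ) < X := by linarith
  have hNpos : (0 : ℝ) < ee p univ := by exact_mod_cast ee_pos p hp univ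
  have hSR : 4 * (((∑ A : Finset ι, ee p A : ℕ) : ℝ) + 1) ≤ X ^ 2 * ee p univ := by
    exact_mod_cast hS
  have hLR : (L : ℝ) * X ^ (2 * j) ≤ ee p univ := by exact_mod_cast hL
  suffices hmain : _ ∧ _ ∧ _ ∧ _ by
    obtain ⟨t₀, h1, h2⟩ := base_interval (univ : Finset (Finset ι)) (ee p)
      (1 / (4 * X) * X ^ j / ee p univ) ((X : ℝ) ^ 2) L (by positivity)
      hmain.1 hmain.2.1 hmain.2.2.1 hmain.2.2.2
    refine ⟨t₀, h1, fun t ht1 ht2 => ?_⟩
    obtain ⟨s, _, hs⟩ := h2 t ht1 ht2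
    exact ⟨s, hs⟩
  refine ⟨?_, ?_, ?_, ?_⟩
  · -- A ≤ 1/2
    have e1 : (X : ℝ) ^ j ≤ 2 * X * ee p univ := by
      have e2 : X ^ j ≤ X ^ (3 * j) := Nat.pow_le_pow_right hX0 (by omega)
      have e3 : X ^ j ≤ 2 * X * ee p univ := by omega
      exact_mod_cast e3
    rw [div_le_iff₀ hNpos]
    have e4 : 1 / (4 * (X : ℝ)) * X ^ j = X ^ j / (4 * X) := by ring
    rw [e4, div_le_iff₀ (by positivity)]
    linarith
  · -- minor arcs
    intro α hα1 hα2
    by_contra hcon
    push Not at hcon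
    have hb : 2 * (Bad p α (1 / (4 * X))).card < (Fintype.card ι).choose j := by
      have e1 : ((Bad p α (1 / (4 * X))).card : ℝ) * (1 / (4 * X)) ^ 2 ≤
          ∑ A : Finset ι, nn ((ee p A : ℝ) * α) ^ 2 := by
        calc ((Bad p α (1 / (4 * X))).card : ℝ) * (1 / (4 * X)) ^ 2
            = ∑ A ∈ Bad p α (1 / (4 * X)), (1 / (4 * (X : ℝ))) ^ 2 := by
              rw [sum_const, nsmul_eq_mul]
          _ ≤ ∑ A ∈ Bad p α (1 / (4 * X)), nn ((ee p A : ℝ) * α) ^ 2 := by
              apply sum_le_sum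
              intro A hA
              rw [mem_Bad] at hA
              exact pow_le_pow_left₀ (by positivity) hA 2
          _ ≤ _ := sum_le_sum_of_subset_of_nonneg (subset_univ _) (fun A _ _ => by positivity)
      have e2 : ((Bad p α (1 / (4 * X))).card : ℝ) * (1 / (4 * X)) ^ 2 < (X : ℝ) ^ 2 :=
        lt_of_le_of_lt e1 hcon
      have e3 : ((Bad p α (1 / (4 * X))).card : ℝ) < 16 * (X : ℝ) ^ 4 := by
        have e4 : ((Bad p α (1 / (4 * X))).card : ℝ)
            = (((Bad p α (1 / (4 * X))).card : ℝ) * (1 / (4 * X)) ^ 2) * (16 * X ^ 2) := by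
          field_simp
          ring
        rw [e4]
        calc _ < (X : ℝ) ^ 2 * (16 * X ^ 2) := mul_lt_mul_of_pos_right e2 (by positivity)
          _ = _ := by ring
      have e4 : (Bad p α (1 / (4 * X))).card < 16 * X ^ 4 := by exact_mod_cast e3
      omega
    have hc := cube_lemma p hp hinj hX0 hX α j hj hN hb
    have := abs_le_nn hα1
    linarith
  · -- major arc
    have e1 : 4 * Real.pi * L * (1 / (4 * X) * X ^ j / ee p univ) ^ 2
        = Real.pi / (4 * X ^ 2 * ee p univ) * ((L * X ^ (2 * j)) / ee p univ) := by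
      have : (X : ℝ) ^ (2 * j) = X ^ j * X ^ j := by ring
      rw [this]
      field_simp
    have e2 : (L * (X : ℝ) ^ (2 * j)) / ee p univ ≤ 1 := by
      rw [div_le_one hNpos]; exact hLR
    have e3 : 4 * Real.pi * L * (1 / (4 * X) * X ^ j / ee p univ) ^ 2 ≤ Real.pi / (4 * X ^ 2 * ee p univ) := by
      rw [e1]
      apply mul_le_of_le_one_right _ e2
      positivity
    calc 4 * Real.pi * L * (1 / (4 * X) * X ^ j / ee p univ) ^ 2 * (((∑ A : Finset ι, ee p A : ℕ) : ℝ) + 1)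
        ≤ Real.pi / (4 * X ^ 2 * ee p univ) * (((∑ A : Finset ι, ee p A : ℕ) : ℝ) + 1) :=
          mul_le_mul_of_nonneg_right e3 (by positivity)
      _ ≤ Real.pi / (4 * X ^ 2 * ee p univ) * (X ^ 2 * ee p univ / 4) := by
          apply mul_le_mul_of_nonneg_left _ (by positivity)
          linarith
      _ = Real.pi / 16 := by field_simp; ring
      _ ≤ 1 / 4 := by
          have := Real.pi_le_four
          linarith
  · -- exponential bound
    have e1 : (ee p univ : ℝ) ≤ (X : ℝ) ^ X := by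
      have h1 := ee_le p hX (univ : Finset ι)
      rw [card_univ] at h1
      have h2 : X ^ Fintype.card ι ≤ X ^ X := Nat.pow_le_pow_right hX0 hcard
      exact_mod_cast h1.trans h2
    have e2 : (X : ℝ) ≤ Real.exp ((X : ℝ) - 1) := by
      have := Real.add_one_le_exp ((X : ℝ) - 1)
      linarith
    have e3 : (X : ℝ) ^ (X + 2) ≤ Real.exp (((X : ℝ) + 2) * ((X : ℝ) - 1)) := by
      calc (X : ℝ) ^ (X + 2) ≤ (Real.exp ((X : ℝ) - 1)) ^ (X + 2) :=
            pow_le_pow_left₀ hXpos.le e2 _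
        _ = _ := by
            rw [← Real.exp_nat_mul]
            push_cast
            ring_nf
    have e4 : (2 : ℝ) ≤ Real.exp 1 := by
      have := Real.exp_one_gt_d9; linarith
    have e5 : 2 * (X : ℝ) ^ (X + 2) ≤ Real.exp (2 * (X : ℝ) ^ 2) := by
      calc 2 * (X : ℝ) ^ (X + 2) ≤ Real.exp 1 * Real.exp (((X : ℝ) + 2) * ((X : ℝ) - 1)) :=
            mul_le_mul e4 e3 (by positivity) (Real.exp_pos _).le
        _ = Real.exp (1 + ((X : ℝ) + 2) * ((X : ℝ) - 1)) := by rw [← Real.exp_add]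
        _ ≤ _ := by
            apply Real.exp_le_exp.2
            nlinarith
    have e6 : ((∑ A : Finset ι, ee p A : ℕ) : ℝ) + 1 ≤ X ^ (X + 2) / 4 := by
      have : (X : ℝ) ^ (X + 2) = X ^ 2 * X ^ X := by ring
      rw [this]
      have h3 : (X : ℝ) ^ 2 * ee p univ ≤ X ^ 2 * X ^ X := mul_le_mul_of_nonneg_left e1 (by positivity)
      linarith
    have e7 : 0 < Real.exp (-2 * (X : ℝ) ^ 2) := Real.exp_pos _
    have e8 : Real.exp (-2 * (X : ℝ) ^ 2) * Real.exp (2 * (X : ℝ) ^ 2) = 1 := by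
      rw [← Real.exp_add]
      simp
    calc 2 * Real.exp (-2 * (X : ℝ) ^ 2) * (((∑ A : Finset ι, ee p A : ℕ) : ℝ) + 1)
        ≤ 2 * Real.exp (-2 * (X : ℝ) ^ 2) * (X ^ (X + 2) / 4) :=
          mul_le_mul_of_nonneg_left e6 (by positivity)
      _ = Real.exp (-2 * (X : ℝ) ^ 2) * (2 * X ^ (X + 2)) / 4 := by ring
      _ ≤ Real.exp (-2 * (X : ℝ) ^ 2) * Real.exp (2 * (X : ℝ) ^ 2) / 4 := by
          apply div_le_div_of_nonneg_right _ (by norm_num)
          exact mul_le_mul_of_nonneg_left e5 e7.le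
      _ = 1 / 4 := by rw [e8]

/-- greedy extension of an interval of representable numbers -/
theorem greedy {κ : Type*} [DecidableEq κ] (w : κ → ℕ) (T : ℕ → Prop) (a L : ℕ)
    (hbase : ∀ t, a ≤ t → t ≤ a + L → T t) (s : Finset κ)
    (h : ∀ e ∈ s, w e ≤ L + ∑ e' ∈ s.filter (fun e' => w e' < w e), w e') :
    ∀ t, a ≤ t → t ≤ a + L + ∑ e ∈ s, w e → ∃ u, T u ∧ ∃ s' ⊆ s, t = u + ∑ e ∈ s', w e := by
  revert h
  induction s using Finset.induction_on_max_value w with
  | empty =>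
    intro _ t h1 h2
    rw [sum_empty, add_zero] at h2
    exact ⟨t, hbase t h1 h2, ∅, subset_rfl, by simp⟩
  | insert x s hx hmax ih =>
    intro h t h1 h2
    have hs : ∀ e ∈ s, w e ≤ L + ∑ e' ∈ s.filter (fun e' => w e' < w e), w e' := by
      intro e he
      have h3 := h e (mem_insert_of_mem he)
      rwa [filter_insert, if_neg (not_lt.2 (hmax e he))] at h3
    have ih' := ih hs
    have hxle : w x ≤ L + ∑ e ∈ s, w e := by
      have h3 := h x (mem_insert_self _ _)
      rw [filter_insert, if_neg (lt_irrefl _)] at h3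
      exact h3.trans (Nat.add_le_add_left (sum_le_sum_of_subset (filter_subset _ _)) _)
    rw [sum_insert hx] at h2
    by_cases h3 : t ≤ a + L + ∑ e ∈ s, w e
    · obtain ⟨u, hu, s', hs', he⟩ := ih' t h1 h3
      exact ⟨u, hu, s', hs'.trans (subset_insert _ _), he⟩
    · obtain ⟨u, hu, s', hs', he⟩ := ih' (t - w x) (by omega) (by omega)
      refine ⟨u, hu, insert x s', insert_subset_insert _ hs', ?_⟩
      rw [sum_insert (fun hc => hx (hs' hc))]
      omega

end Pool.Agent.Y960.Weird
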