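import Mathlib
import Pool.Agent.Y960.Weird.Base

/-!
The core: a product of primes whose set of prime factors is suitably distributed is semiperfect.
-/

set_option autoImplicit false
set_option linter.unusedSectionVars false

namespace Pool.Agent.Y960.Weird

open Finset

variable {ι : Type*} [Fintype ι] [DecidableEq ι]

lemma growth_aux (p : ι → ℕ) (hp : ∀ i, (p i).Prime) (C : Finset ι) (i : ι) (hi : i ∈ C)
    (ℬ : Finset (Finset ι)) (hdisj : ∀ B ∈ ℬ, Disjoint B C) (hbig : ∀ B ∈ ℬ, p i < ee p B)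
    (hsum : 1 ≤ ∑ B ∈ ℬ, (p i : ℝ) / ee p B) :
    1 / (ee p C : ℝ) ≤
      ∑ C' ∈ univ.filter (fun C' => ee p C < ee p C'), 1 / (ee p C' : ℝ) := by
  have hpi : 0 < p i := (hp i).pos
  have hpiR : (0 : ℝ) < p i := by exact_mod_cast hpi
  have hCpos : (0 : ℝ) < ee p C := by exact_mod_cast ee_pos p hp C
  have hC : ee p C = p i * ee p (C.erase i) := by
    rw [← ee_insert p (notMem_erase i C), insert_erase hi]
  have hE0 : 0 < ee p (C.erase i) := ee_pos p hp _
  have hE0R : (0 : ℝ) < ee p (C.erase i) := by exact_mod_cast hE0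
  have hdisj' : ∀ B ∈ ℬ, Disjoint (C.erase i) B := fun B hB =>
    ((hdisj B hB).symm.mono_left (erase_subset _ _))
  have hval : ∀ B ∈ ℬ, ee p (C.erase i ∪ B) = ee p (C.erase i) * ee p B := by
    intro B hB
    exact prod_union (hdisj' B hB)
  have hinj : Set.InjOn (fun B => C.erase i ∪ B) (ℬ : Set (Finset ι)) := by
    intro B hB B' hB' h
    have e : ∀ B ∈ ℬ, (C.erase i ∪ B) \ C = B := by
      intro B hB
      have h1 : (C.erase i) \ C = ∅ := sdiff_eq_empty_iff_subset.2 (erase_subset _ _)
      rw [union_sdiff_distrib, h1, empty_union]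
      exact sdiff_eq_self_of_disjoint (hdisj B hB)
    rw [← e B hB, ← e B' hB']
    simp only at h
    rw [h]
  have hsub : ℬ.image (fun B => C.erase i ∪ B) ⊆ univ.filter (fun C' => ee p C < ee p C') := by
    intro C' hC'
    rw [mem_image] at hC'
    obtain ⟨B, hB, rfl⟩ := hC'
    rw [mem_filter]
    refine ⟨mem_univ _, ?_⟩
    rw [hval B hB, hC, mul_comm]
    exact Nat.mul_lt_mul_of_pos_left (hbig B hB) hE0
  calc 1 / (ee p C : ℝ) ≤ 1 / (ee p C : ℝ) * ∑ B ∈ ℬ, (p i : ℝ) / ee p B :=
        le_mul_of_one_le_right (by positivity) hsum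
    _ = ∑ B ∈ ℬ, 1 / (ee p (C.erase i ∪ B) : ℝ) := by
        rw [mul_sum]
        apply sum_congr rfl
        intro B hB
        have hB0 : (0 : ℝ) < ee p B := by exact_mod_cast ee_pos p hp B
        rw [hval B hB, hC]
        push_cast
        field_simp
    _ = ∑ C' ∈ ℬ.image (fun B => C.erase i ∪ B), 1 / (ee p C' : ℝ) := by
        rw [sum_image hinj]
    _ ≤ _ := sum_le_sum_of_subset_of_nonneg hsub (fun _ _ _ => by positivity)

lemma growth (p : ι → ℕ) (hp : ∀ i, (p i).Prime) (hinj : Function.Injective p) {Z D : ℕ} (hZ : 1 ≤ Z)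
    (hX : ∀ i, p i ≤ 2 * Z)
    (hlow : ∀ i, p i ≤ Z →
      1 ≤ (p i : ℝ) * ∑ i' ∈ univ.filter (fun i' => p i < p i'), 1 / (p i' : ℝ))
    (hhigh : ∀ C : Finset ι, ee p C < D →
      4 * Z ≤ (((univ.filter (fun i => Z < p i)) \ C).card).choose 2)
    (C : Finset ι) (hC : C.Nonempty) (hCD : ee p C < D) :
    1 / (ee p C : ℝ) ≤
      ∑ C' ∈ univ.filter (fun C' => ee p C < ee p C'), 1 / (ee p C' : ℝ) := by
  obtain ⟨i, hi, hmax⟩ := exists_max_image C p hC
  have hZR : (1 : ℝ) ≤ Z := by exact_mod_cast hZ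
  rcases Nat.lt_or_ge Z (p i) with hcase | hcase
  · -- the largest prime is in the top block
    apply growth_aux p hp C i hi (powersetCard 2 ((univ.filter (fun i => Z < p i)) \ C))
    · intro B hB
      rw [mem_powersetCard] at hB
      rw [disjoint_left]
      intro x hx
      exact (mem_sdiff.1 (hB.1 hx)).2
    · intro B hB
      rw [mem_powersetCard] at hB
      obtain ⟨x, y, hxy, rfl⟩ := card_eq_two.1 hB.2
      have hx : x ∈ (univ.filter (fun i => Z < p i)) \ C := hB.1 (by simp)
      have hy : y ∈ (univ.filter (fun i => Z < p i)) \ C := hB.1 (by simp)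
      rw [mem_sdiff, mem_filter] at hx hy
      unfold ee
      rw [prod_pair hxy]
      have h1 := hX i
      have h2 := hx.1.2
      have h3 := hy.1.2
      have h4 : (Z + 1) * (Z + 1) ≤ p x * p y := Nat.mul_le_mul h2 h3
      nlinarith
    · have h1 : ∀ B ∈ powersetCard 2 ((univ.filter (fun i => Z < p i)) \ C),
          1 / (4 * (Z : ℝ)) ≤ (p i : ℝ) / ee p B := by
        intro B hB
        rw [mem_powersetCard] at hB
        have hB0 : (0 : ℝ) < ee p B := by exact_mod_cast ee_pos p hp B
        have hB1 : ee p B ≤ (2 * Z) ^ 2 := by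
          have := ee_le p hX B
          rwa [hB.2] at this
        have hB2 : (ee p B : ℝ) ≤ (2 * Z) ^ 2 := by exact_mod_cast hB1
        have hpi : (Z : ℝ) < p i := by exact_mod_cast hcase
        rw [div_le_div_iff₀ (by positivity) hB0]
        nlinarith
      have h2 := hhigh C hCD
      have h2R : (4 * Z : ℝ) ≤ ((((univ.filter (fun i => Z < p i)) \ C).card).choose 2 : ℕ) := by
        exact_mod_cast h2
      calc (1 : ℝ) = (4 * Z) * (1 / (4 * Z)) := by field_simp
        _ ≤ ((((univ.filter (fun i => Z < p i)) \ C).card).choose 2 : ℕ) * (1 / (4 * (Z : ℝ))) :=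
            mul_le_mul_of_nonneg_right h2R (by positivity)
        _ = ∑ B ∈ powersetCard 2 ((univ.filter (fun i => Z < p i)) \ C), 1 / (4 * (Z : ℝ)) := by
            rw [sum_const, card_powersetCard, nsmul_eq_mul]
        _ ≤ _ := sum_le_sum h1
  · -- the largest prime is in a lower block
    have hl := hlow i hcase
    apply growth_aux p hp C i hi ((univ.filter (fun i' => p i < p i')).image (fun i' => {i'}))
    · intro B hB
      rw [mem_image] at hB
      obtain ⟨i', hi', rfl⟩ := hB
      rw [mem_filter] at hi'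
      rw [disjoint_singleton_left]
      intro hc
      have := hmax i' hc
      omega
    · intro B hB
      rw [mem_image] at hB
      obtain ⟨i', hi', rfl⟩ := hB
      rw [mem_filter] at hi'
      unfold ee
      rw [prod_singleton]
      exact hi'.2
    · rw [sum_image (by
        intro a _ b _ h
        simpa using h)]
      rw [mul_sum] at hl
      refine hl.trans (le_of_eq ?_)
      apply sum_congr rfl
      intro i' _
      unfold ee
      rw [prod_singleton]
      ring

theorem semiperfect_core (p : ι → ℕ) (hp : ∀ i, (p i).Prime) (hinj : Function.Injective p)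
    {j Z D L p₀ : ℕ} (hp₀ : p₀.Prime) (hp₀' : ∀ i, p i ≠ p₀)
    (hX : ∀ i, p i ≤ 2 * Z) (hZ : 1 ≤ Z) (hj : 2 * j ≤ Fintype.card ι)
    (hN : (2 * Z) ^ (3 * j) < 2 * (2 * Z) * ee p univ)
    (hk : 32 * (2 * Z) ^ 4 ≤ (Fintype.card ι).choose j)
    (hS : 4 * ((∑ A : Finset ι, ee p A) + 1) ≤ (2 * Z) ^ 2 * ee p univ)
    (hcard : Fintype.card ι ≤ 2 * Z)
    (hL : L * (2 * Z) ^ (2 * j) ≤ ee p univ)
    (hD : p₀ * ee p univ ≤ L * D)
    (hlow : ∀ i, p i ≤ Z →
      1 ≤ (p i : ℝ) * ∑ i' ∈ univ.filter (fun i' => p i < p i'), 1 / (p i' : ℝ))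
    (hhigh : ∀ C : Finset ι, ee p C < D →
      4 * Z ≤ (((univ.filter (fun i => Z < p i)) \ C).card).choose 2)
    (hm1 : 2 * ee p univ ≤ ∑ A : Finset ι, ee p A)
    (hm2 : ∑ A : Finset ι, ee p A ≤ p₀ * ee p univ) :
    ∃ s ⊆ (p₀ * ee p univ).properDivisors, ∑ d ∈ s, d = p₀ * ee p univ := by
  obtain ⟨t₀, ht₀, hbase⟩ := base_primes p hp hinj (X := 2 * Z) (by omega) hX hj hN hk hS hcard L hL
  set N := ee p univ with hNdef
  have hNpos : 0 < N := ee_pos p hp univ
  set S := ∑ A : Finset ι, ee p A with hSdef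
  have hp₀0 : 0 < p₀ := hp₀.pos
  set W : Finset ι → ℕ := fun C => p₀ * ee p Cᶜ with hW
  have hWmul : ∀ C, W C * ee p C = p₀ * N := by
    intro C
    rw [hW]
    simp only
    rw [mul_assoc, mul_comm (ee p Cᶜ), ee_mul_compl]
  have hgrow : ∀ C ∈ univ.filter (fun C : Finset ι => C.Nonempty),
      W C ≤ L + ∑ C' ∈ (univ.filter (fun C : Finset ι => C.Nonempty)).filter
        (fun C' => W C' < W C), W C' := by
    intro C hC
    rw [mem_filter] at hC
    have hCpos : 0 < ee p C := ee_pos p hp C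
    rcases Nat.lt_or_ge (ee p C) D with h1 | h1
    · have h2 := growth p hp hinj hZ hX hlow hhigh C hC.2 h1
      have h3 : (W C : ℝ) ≤ ∑ C' ∈ univ.filter (fun C' => ee p C < ee p C'), (W C' : ℝ) := by
        have e1 : ∀ C', (W C' : ℝ) = (p₀ * N : ℝ) * (1 / (ee p C' : ℝ)) := by
          intro C'
          have hC'pos : (0 : ℝ) < ee p C' := by exact_mod_cast ee_pos p hp C'
          have e2 : (W C' : ℝ) * ee p C' = p₀ * N := by exact_mod_cast hWmul C'
          rw [← e2]
          field_simp
        rw [e1 C, sum_congr rfl (fun C' _ => e1 C'), ← mul_sum]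
        exact mul_le_mul_of_nonneg_left h2 (by positivity)
      have h4 : W C ≤ ∑ C' ∈ univ.filter (fun C' => ee p C < ee p C'), W C' := by
        exact_mod_cast h3
      have h5 : univ.filter (fun C' => ee p C < ee p C') ⊆
          (univ.filter (fun C : Finset ι => C.Nonempty)).filter (fun C' => W C' < W C) := by
        intro C' hC'
        rw [mem_filter] at hC'
        rw [mem_filter, mem_filter]
        refine ⟨⟨mem_univ _, ?_⟩, ?_⟩
        · rw [nonempty_iff_ne_empty]
          rintro rfl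
          have : ee p (∅ : Finset ι) = 1 := prod_empty
          omega
        · have e1 := hWmul C
          have e2 := hWmul C'
          by_contra hcon
          push Not at hcon
          have e3 : W C * ee p C < W C' * ee p C' := by
            have hWpos : 0 < W C' := Nat.mul_pos hp₀0 (ee_pos p hp _)
            calc W C * ee p C ≤ W C' * ee p C := Nat.mul_le_mul_right _ hcon
              _ < W C' * ee p C' := Nat.mul_lt_mul_of_pos_left hC'.2 hWpos
          omega
      exact h4.trans ((sum_le_sum_of_subset h5).trans (Nat.le_add_left _ _))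
    · have h2 : W C * ee p C ≤ L * ee p C := by
        rw [hWmul C]
        exact hD.trans (Nat.mul_le_mul_left _ h1)
      exact (Nat.le_of_mul_le_mul_right h2 hCpos).trans (Nat.le_add_right _ _)
  have hsumW : ∑ C ∈ univ.filter (fun C : Finset ι => C.Nonempty), W C + p₀ * N = p₀ * S := by
    have e1 : ∑ C : Finset ι, W C = p₀ * S := by
      rw [hW]
      simp only
      rw [← mul_sum]
      congr 1
      rw [hSdef]
      exact Fintype.sum_bijective compl compl_bijective _ _ (fun C => rfl)
    rw [← e1, ← sum_filter_add_sum_filter_not univ (fun C : Finset ι => C.Nonempty)]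
    congr 1
    have e2 : univ.filter (fun C : Finset ι => ¬ C.Nonempty) = {∅} := by
      ext C
      simp [not_nonempty_iff_eq_empty]
    rw [e2, sum_singleton, hW]
    simp only
    rw [compl_empty]
  have hcov := greedy W (fun t => ∃ s : Finset (Finset ι), ∑ A ∈ s, ee p A = t) t₀ L hbase
    (univ.filter (fun C : Finset ι => C.Nonempty)) hgrow (p₀ * N) (ht₀.trans hm2) (by
      have e1 : p₀ * (2 * N) ≤ p₀ * S := Nat.mul_le_mul_left _ hm1
      have e2 : p₀ * (2 * N) = p₀ * N + p₀ * N := by ring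
      omega)
  obtain ⟨u, ⟨𝒜, h𝒜⟩, s', hs', hsum⟩ := hcov
  -- injectivity
  have heeinj : Function.Injective (ee p) := by
    intro A B h
    ext i
    rw [← dvd_ee_iff p hp hinj A i, ← dvd_ee_iff p hp hinj B i, h]
  have hWinj : Function.Injective W := by
    intro A B h
    have h1 : ee p Aᶜ = ee p Bᶜ := Nat.eq_of_mul_eq_mul_left hp₀0 h
    have h2 := heeinj h1
    exact compl_injective h2
  have hp₀ndvd : ∀ A, ¬ p₀ ∣ ee p A := by
    intro A h
    unfold ee at h
    rw [hp₀.prime.dvd_finsetProd_iff] at h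
    obtain ⟨i, _, hi⟩ := h
    exact hp₀' i ((Nat.prime_dvd_prime_iff_eq hp₀ (hp i)).1 hi).symm
  have hdisj : Disjoint (𝒜.image (ee p)) (s'.image W) := by
    rw [disjoint_left]
    intro x hx hy
    rw [mem_image] at hx hy
    obtain ⟨A, _, rfl⟩ := hx
    obtain ⟨C, _, hC⟩ := hy
    apply hp₀ndvd A
    rw [← hC]
    exact Dvd.intro _ rfl
  have hdvd : ∀ A, ee p A ∣ N := fun A => Dvd.intro _ (ee_mul_compl p A)
  have hle : ∀ A, ee p A ≤ N := fun A => Nat.le_of_dvd hNpos (hdvd A)
  refine ⟨𝒜.image (ee p) ∪ s'.image W, ?_, ?_⟩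
  · intro x hx
    rw [mem_union, mem_image, mem_image] at hx
    rw [Nat.mem_properDivisors]
    rcases hx with ⟨A, _, rfl⟩ | ⟨C, hC, rfl⟩
    · refine ⟨(hdvd A).mul_left _, ?_⟩
      have h1 := hle A
      have h2 := hp₀.two_le
      nlinarith
    · refine ⟨Nat.mul_dvd_mul_left _ (hdvd _), ?_⟩
      have hCne : C.Nonempty := (mem_filter.1 (hs' hC)).2
      have h1 : ee p C * ee p Cᶜ = N := ee_mul_compl p C
      have h2 : 1 < ee p C := by
        obtain ⟨i, hi⟩ := hCne
        have h3 : p i ∣ ee p C := (dvd_ee_iff p hp hinj C i).2 hi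
        exact lt_of_lt_of_le (hp i).one_lt (Nat.le_of_dvd (ee_pos p hp C) h3)
      have h3 : ee p Cᶜ < N := by
        rw [← h1]
        have := ee_pos p hp Cᶜ
        nlinarith
      exact Nat.mul_lt_mul_of_pos_left h3 hp₀0
  · rw [sum_union hdisj, sum_image (fun a _ b _ h => heeinj h), sum_image (fun a _ b _ h => hWinj h)]
    rw [h𝒜]
    exact hsum.symm

end Pool.Agent.Y960.Weird
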