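import Mathlib

/-!
Selection of a well distributed subset from a finite set of primes with a large sum of reciprocals.
-/

set_option autoImplicit false
set_option linter.unusedSectionVars false

namespace Pool.Agent.Y960.Weird

open Finset

/-- mass of the dyadic block `l` -/
noncomputable def mass (P : Finset ℕ) (l : ℕ) : ℝ :=
  ∑ p ∈ P.filter (fun p => Nat.log 2 p = l), (1 : ℝ) / p

open Classical in
/-- the elements of dense blocks up to `i` -/
noncomputable def Sel (P : Finset ℕ) (i : ℕ) : Finset ℕ :=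
  P.filter (fun p => Nat.log 2 p ≤ i ∧ 1 / ((Nat.log 2 p : ℕ) : ℝ) ^ 2 ≤ mass P (Nat.log 2 p))

noncomputable def GG (P : Finset ℕ) (i : ℕ) : ℝ := ∑ q ∈ Sel P i, (1 : ℝ) / q

lemma mass_le_one (P : Finset ℕ) (hP : ∀ p ∈ P, 0 < p) (l : ℕ) : mass P l ≤ 1 := by
  unfold mass
  have h1 : P.filter (fun p => Nat.log 2 p = l) ⊆ Finset.Ico (2 ^ l) (2 ^ (l + 1)) := by
    intro p hp
    rw [mem_filter] at hp
    have h0 : p ≠ 0 := (hP p hp.1).ne'
    rw [mem_Ico]
    obtain ⟨h2, h3⟩ := hp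
    constructor
    · rw [← h3]; exact Nat.pow_log_le_self 2 h0
    · rw [← h3]; exact Nat.lt_pow_succ_log_self (by norm_num) p
  have h2 : (P.filter (fun p => Nat.log 2 p = l)).card ≤ 2 ^ l := by
    have := card_le_card h1
    rw [Nat.card_Ico] at this
    have e : 2 ^ (l + 1) = 2 ^ l + 2 ^ l := by ring
    rw [e, Nat.add_sub_cancel] at this
    exact this
  calc ∑ p ∈ P.filter (fun p => Nat.log 2 p = l), (1 : ℝ) / p
      ≤ ∑ p ∈ P.filter (fun p => Nat.log 2 p = l), (1 : ℝ) / 2 ^ l := by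
        apply sum_le_sum
        intro p hp
        have h3 := (mem_Ico.1 (h1 hp)).1
        apply one_div_le_one_div_of_le (by positivity)
        exact_mod_cast h3
    _ = (P.filter (fun p => Nat.log 2 p = l)).card * (1 / 2 ^ l : ℝ) := by
        rw [sum_const, nsmul_eq_mul]
    _ ≤ (2 ^ l : ℝ) * (1 / 2 ^ l : ℝ) := by
        apply mul_le_mul_of_nonneg_right _ (by positivity)
        exact_mod_cast h2
    _ = 1 := by field_simp

lemma card_block_ge (P : Finset ℕ) (hP : ∀ p ∈ P, 0 < p) (l : ℕ) :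
    (2 : ℝ) ^ l * mass P l ≤ (P.filter (fun p => Nat.log 2 p = l)).card := by
  unfold mass
  rw [mul_sum]
  calc ∑ p ∈ P.filter (fun p => Nat.log 2 p = l), (2 : ℝ) ^ l * (1 / p)
      ≤ ∑ p ∈ P.filter (fun p => Nat.log 2 p = l), (1 : ℝ) := by
        apply sum_le_sum
        intro p hp
        rw [mem_filter] at hp
        have h0 : p ≠ 0 := (hP p hp.1).ne'
        have h1 : (2 : ℕ) ^ l ≤ p := by rw [← hp.2]; exact Nat.pow_log_le_self 2 h0
        have h2 : (2 : ℝ) ^ l ≤ p := by exact_mod_cast h1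
        have h3 : (0 : ℝ) < p := by exact_mod_cast Nat.pos_of_ne_zero h0
        rw [mul_one_div, div_le_one h3]
        exact h2
    _ = _ := by simp

lemma GG_succ_le (P : Finset ℕ) (hP : ∀ p ∈ P, 0 < p) (i : ℕ) :
    GG P (i + 1) ≤ GG P i + mass P (i + 1) := by
  unfold GG mass
  classical
  have h1 : Sel P (i + 1) ⊆ Sel P i ∪ P.filter (fun p => Nat.log 2 p = i + 1) := by
    intro p hp
    unfold Sel at *
    rw [mem_filter] at hp
    rw [mem_union, mem_filter, mem_filter]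
    rcases Nat.lt_or_ge (Nat.log 2 p) (i + 1) with h | h
    · left; exact ⟨hp.1, by omega, hp.2.2⟩
    · right; exact ⟨hp.1, by omega⟩
  refine (sum_le_sum_of_subset_of_nonneg h1 (fun _ _ _ => by positivity)).trans ?_
  rw [← sum_union_inter]
  have : 0 ≤ ∑ x ∈ Sel P i ∩ P.filter (fun p => Nat.log 2 p = i + 1), (1 : ℝ) / x :=
    sum_nonneg fun _ _ => by positivity
  linarith

lemma GG_mono_diff (P : Finset ℕ) (i r : ℕ) (h : i ≤ r) :
    GG P r - GG P i = ∑ q ∈ (Sel P r).filter (fun q => i < Nat.log 2 q), (1 : ℝ) / q := by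
  unfold GG
  classical
  rw [← sum_filter_add_sum_filter_not (Sel P r) (fun q => i < Nat.log 2 q)]
  have e : (Sel P r).filter (fun q => ¬ i < Nat.log 2 q) = Sel P i := by
    ext q
    unfold Sel
    simp only [mem_filter, not_lt]
    constructor
    · rintro ⟨⟨h1, h2, h3⟩, h4⟩; exact ⟨h1, h4, h3⟩
    · rintro ⟨h1, h2, h3⟩; exact ⟨⟨h1, h2.trans h, h3⟩, h2⟩
  rw [e]
  ring

/-- The selection lemma. -/
theorem selection (P : Finset ℕ) (hP : ∀ p ∈ P, p.Prime) (i₀ : ℕ) (hi₀ : 3 ≤ i₀)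
    (hlev : ∀ p ∈ P, i₀ ≤ Nat.log 2 p) (hsum : 4 ≤ ∑ p ∈ P, (1 : ℝ) / p) :
    ∃ r, i₀ ≤ r ∧ ∃ Q ⊆ P, (∀ q ∈ Q, q ≤ 2 * 2 ^ r) ∧
      2 ^ r ≤ r ^ 2 * (Q.filter (fun q => 2 ^ r < q)).card ∧
      (∀ q ∈ Q, q ≤ 2 ^ r → 1 ≤ (q : ℝ) * ∑ q' ∈ Q.filter (fun q' => q < q'), (1 : ℝ) / q') ∧
      3 / 2 ≤ ∑ q ∈ Q, (1 : ℝ) / q ∧ ∑ q ∈ Q, (1 : ℝ) / q ≤ 3 := by
  classical
  have hP0 : ∀ p ∈ P, 0 < p := fun p hp => (hP p hp).pos
  -- the dense part has mass at least 2
  obtain ⟨Imax, hImax⟩ : ∃ I, ∀ p ∈ P, Nat.log 2 p ≤ I := ⟨P.sup (fun p => Nat.log 2 p), fun p hp =>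
    Finset.le_sup (f := fun p => Nat.log 2 p) hp⟩
  have htot : 2 ≤ GG P (max Imax i₀) := by
    have h1 : ∑ p ∈ P, (1 : ℝ) / p ≤ GG P (max Imax i₀) +
        ∑ l ∈ Finset.Icc i₀ (max Imax i₀), (1 : ℝ) / (l : ℝ) ^ 2 := by
      rw [← sum_filter_add_sum_filter_not P (fun p => 1 / ((Nat.log 2 p : ℕ) : ℝ) ^ 2 ≤ mass P (Nat.log 2 p))]
      apply add_le_add
      · unfold GG Sel
        apply sum_le_sum_of_subset_of_nonneg
        · intro p hp
          rw [mem_filter] at hp ⊢
          exact ⟨hp.1, (hImax p hp.1).trans (le_max_left _ _), hp.2⟩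
        · intros; positivity
      · rw [← sum_fiberwise_of_maps_to (s := P.filter (fun p => ¬ 1 / ((Nat.log 2 p : ℕ) : ℝ) ^ 2 ≤ mass P (Nat.log 2 p)))
          (t := Finset.Icc i₀ (max Imax i₀)) (g := fun p => Nat.log 2 p)]
        · apply sum_le_sum
          intro l _
          by_cases hl : 1 / (l : ℝ) ^ 2 ≤ mass P l
          · have e : (P.filter (fun p => ¬ 1 / ((Nat.log 2 p : ℕ) : ℝ) ^ 2 ≤ mass P (Nat.log 2 p))).filter
                (fun p => Nat.log 2 p = l) = ∅ := by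
              rw [filter_eq_empty_iff]
              intro p hp h
              rw [mem_filter, h] at hp
              exact hp.2 hl
            rw [e, sum_empty]
            positivity
          · push Not at hl
            refine le_trans ?_ hl.le
            unfold mass
            apply sum_le_sum_of_subset_of_nonneg
            · intro p hp
              rw [mem_filter, mem_filter] at hp
              rw [mem_filter]
              exact ⟨hp.1.1, hp.2⟩
            · intros; positivity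
        · intro p hp
          rw [mem_filter] at hp
          rw [mem_Icc]
          exact ⟨hlev p hp.1, (hImax p hp.1).trans (le_max_left _ _)⟩
    have h2 : ∑ l ∈ Finset.Icc i₀ (max Imax i₀), (1 : ℝ) / (l : ℝ) ^ 2 ≤ 2 := by
      calc ∑ l ∈ Finset.Icc i₀ (max Imax i₀), (1 : ℝ) / (l : ℝ) ^ 2
          ≤ ∑ l ∈ Finset.Ioo 0 (max Imax i₀ + 1), (1 : ℝ) / (l : ℝ) ^ 2 := by
            apply sum_le_sum_of_subset_of_nonneg
            · intro l hl
              rw [mem_Icc] at hl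
              rw [mem_Ioo]
              omega
            · intros; positivity
        _ = ∑ l ∈ Finset.Ioo 0 (max Imax i₀ + 1), ((l : ℝ) ^ 2)⁻¹ := by simp [one_div]
        _ ≤ 2 / ((0 : ℕ) + 1) := sum_Ioo_inv_sq_le 0 _
        _ = 2 := by norm_num
    linarith
  -- the stopping block
  have hex : ∃ i, i₀ ≤ i ∧ 2 - 2 / (2 : ℝ) ^ i ≤ GG P i := by
    refine ⟨max Imax i₀, le_max_right _ _, ?_⟩
    have : (0 : ℝ) < 2 / (2 : ℝ) ^ (max Imax i₀) := by positivity
    linarith
  obtain ⟨r, ⟨hr1, hr2⟩, hmin⟩ : ∃ r, (i₀ ≤ r ∧ 2 - 2 / (2 : ℝ) ^ r ≤ GG P r) ∧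
      ∀ s < r, ¬ (i₀ ≤ s ∧ 2 - 2 / (2 : ℝ) ^ s ≤ GG P s) :=
    ⟨Nat.find hex, Nat.find_spec hex, fun s hs => Nat.find_min hex hs⟩
  have hpow8 : ∀ i, i₀ ≤ i → 2 / (2 : ℝ) ^ i ≤ 1 / 4 := by
    intro i hi
    have h1 : (2 : ℝ) ^ 3 ≤ 2 ^ i := pow_le_pow_right₀ (by norm_num) (by omega)
    rw [div_le_iff₀ (by positivity)]
    linarith
  -- `r > i₀`
  have hGi₀ : GG P i₀ ≤ 1 := by
    have h1 : Sel P i₀ ⊆ P.filter (fun p => Nat.log 2 p = i₀) := by
      intro p hp
      unfold Sel at hp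
      rw [mem_filter] at hp ⊢
      have := hlev p hp.1
      exact ⟨hp.1, by omega⟩
    have h2 : GG P i₀ ≤ mass P i₀ := by
      unfold GG mass
      exact sum_le_sum_of_subset_of_nonneg h1 (fun _ _ _ => by positivity)
    exact h2.trans (mass_le_one P hP0 i₀)
  have hr3 : i₀ < r := by
    rcases hr1.eq_or_lt with h | h
    · exfalso
      rw [← h] at hr2
      have := hpow8 i₀ le_rfl
      linarith
    · exact h
  obtain ⟨r', rfl⟩ : ∃ r', r = r' + 1 := ⟨r - 1, by omega⟩
  have hprev : GG P r' < 2 - 2 / (2 : ℝ) ^ r' := by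
    have := hmin r' (by omega)
    by_contra hcon
    push Not at hcon
    exact this ⟨by omega, hcon⟩
  have hstep := GG_succ_le P hP0 r'
  have hmass1 := mass_le_one P hP0 (r' + 1)
  -- the block `r` is dense
  have hdense : 1 / ((r' + 1 : ℕ) : ℝ) ^ 2 ≤ mass P (r' + 1) := by
    by_contra hcon
    have hsame : Sel P (r' + 1) = Sel P r' := by
      ext p
      unfold Sel
      simp only [mem_filter]
      constructor
      · rintro ⟨h1, h2, h3⟩
        refine ⟨h1, ?_, h3⟩
        rcases Nat.lt_or_ge (Nat.log 2 p) (r' + 1) with h | h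
        · omega
        · exfalso
          have h4 : Nat.log 2 p = r' + 1 := by omega
          rw [h4] at h3
          exact hcon h3
      · rintro ⟨h1, h2, h3⟩
        exact ⟨h1, by omega, h3⟩
    have h1 : GG P (r' + 1) = GG P r' := by unfold GG; rw [hsame]
    rw [h1] at hr2
    have h2 : 2 / (2 : ℝ) ^ (r' + 1) ≤ 2 / (2 : ℝ) ^ r' := by
      apply div_le_div_of_nonneg_left (by norm_num) (by positivity)
      exact pow_le_pow_right₀ (by norm_num) (by omega)
    linarith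
  refine ⟨r' + 1, hr1, Sel P (r' + 1), ?_, ?_, ?_, ?_, ?_, ?_⟩
  · unfold Sel; exact filter_subset _ _
  · intro q hq
    unfold Sel at hq
    rw [mem_filter] at hq
    have h1 := Nat.lt_pow_succ_log_self (by norm_num : 1 < 2) q
    have h2 : 2 ^ (Nat.log 2 q + 1) ≤ 2 ^ (r' + 1 + 1) := Nat.pow_le_pow_right (by norm_num) (by omega)
    have h3 : 2 ^ (r' + 1 + 1) = 2 * 2 ^ (r' + 1) := by ring
    omega
  · -- density of the top block
    have h1 := card_block_ge P hP0 (r' + 1)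
    have h2 : P.filter (fun p => Nat.log 2 p = r' + 1) ⊆
        (Sel P (r' + 1)).filter (fun q => 2 ^ (r' + 1) < q) := by
      intro p hp
      rw [mem_filter] at hp
      unfold Sel
      rw [mem_filter, mem_filter]
      refine ⟨⟨hp.1, hp.2.le, ?_⟩, ?_⟩
      · rw [hp.2]; exact hdense
      · have h3 : 2 ^ (r' + 1) ≤ p := by rw [← hp.2]; exact Nat.pow_log_le_self 2 (hP0 p hp.1).ne'
        rcases h3.eq_or_lt with h4 | h4
        · exfalso
          have h5 := hP p hp.1
          rw [← h4] at h5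
          have h6 := Nat.Prime.eq_one_of_pow h5
          omega
        · exact h4
    have h3 := card_le_card h2
    have h4 : (2 : ℝ) ^ (r' + 1) ≤ ((r' + 1 : ℕ) : ℝ) ^ 2 *
        (((Sel P (r' + 1)).filter (fun q => 2 ^ (r' + 1) < q)).card : ℝ) := by
      have h5 : (2 : ℝ) ^ (r' + 1) * (1 / ((r' + 1 : ℕ) : ℝ) ^ 2) ≤
          (((Sel P (r' + 1)).filter (fun q => 2 ^ (r' + 1) < q)).card : ℝ) := by
        calc (2 : ℝ) ^ (r' + 1) * (1 / ((r' + 1 : ℕ) : ℝ) ^ 2)
            ≤ (2 : ℝ) ^ (r' + 1) * mass P (r' + 1) :=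
              mul_le_mul_of_nonneg_left hdense (by positivity)
          _ ≤ _ := h1
          _ ≤ _ := by exact_mod_cast h3
      have h6 : (0 : ℝ) < ((r' + 1 : ℕ) : ℝ) ^ 2 := by positivity
      rw [mul_one_div, div_le_iff₀ h6] at h5
      linarith
    exact_mod_cast h4
  · -- growth condition
    intro q hq hq2
    have hq' := hq
    unfold Sel at hq'
    rw [mem_filter] at hq'
    obtain ⟨hqP, hq1, hq3⟩ := hq'
    have hq0 : 0 < q := hP0 q hqP
    set s := Nat.log 2 q with hs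
    have hsr : s < r' + 1 := by
      rcases hq1.eq_or_lt with h | h
      · exfalso
        have h3 : 2 ^ (r' + 1) ≤ q := by rw [← h, hs]; exact Nat.pow_log_le_self 2 hq0.ne'
        have h4 : q = 2 ^ (r' + 1) := le_antisymm hq2 h3
        have h5 := hP q hqP
        rw [h4] at h5
        have h6 := Nat.Prime.eq_one_of_pow h5
        omega
      · exact h
    have hs0 : i₀ ≤ s := hlev q hqP
    have hGs : GG P s < 2 - 2 / (2 : ℝ) ^ s := by
      have := hmin s hsr
      by_contra hcon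
      push Not at hcon
      exact this ⟨hs0, hcon⟩
    have hd := GG_mono_diff P s (r' + 1) hsr.le
    have h1 : ∑ q' ∈ (Sel P (r' + 1)).filter (fun q => s < Nat.log 2 q), (1 : ℝ) / q' ≤
        ∑ q' ∈ (Sel P (r' + 1)).filter (fun q' => q < q'), (1 : ℝ) / q' := by
      apply sum_le_sum_of_subset_of_nonneg
      · intro q' hq'
        rw [mem_filter] at hq' ⊢
        refine ⟨hq'.1, ?_⟩
        by_contra hcon
        push Not at hcon
        have := Nat.log_mono_right (b := 2) hcon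
        omega
      · intros; positivity
    have h2 : 1 / (2 : ℝ) ^ s ≤ GG P (r' + 1) - GG P s := by
      have h3 : 2 / (2 : ℝ) ^ (r' + 1) ≤ 1 / (2 : ℝ) ^ s := by
        have h4 : (2 : ℝ) ^ (s + 1) ≤ 2 ^ (r' + 1) := pow_le_pow_right₀ (by norm_num) (by omega)
        rw [div_le_div_iff₀ (by positivity) (by positivity)]
        calc 2 * (2 : ℝ) ^ s = 2 ^ (s + 1) := by ring
          _ ≤ _ := by linarith
      have h5 : 2 / (2 : ℝ) ^ s = 1 / (2 : ℝ) ^ s + 1 / (2 : ℝ) ^ s := by ring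
      linarith
    have h3 : (2 : ℝ) ^ s ≤ q := by
      have : 2 ^ s ≤ q := Nat.pow_log_le_self 2 hq0.ne'
      exact_mod_cast this
    have hqR : (0 : ℝ) < q := by exact_mod_cast hq0
    calc (1 : ℝ) = 2 ^ s * (1 / 2 ^ s) := by field_simp
      _ ≤ q * (1 / 2 ^ s) := mul_le_mul_of_nonneg_right h3 (by positivity)
      _ ≤ _ := mul_le_mul_of_nonneg_left (h2.trans (hd.le.trans h1)) hqR.le
  · have := hpow8 (r' + 1) hr1
    change _ ≤ GG P (r' + 1)
    linarith
  · change GG P (r' + 1) ≤ 3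
    have : (0 : ℝ) < 2 / (2 : ℝ) ^ r' := by positivity
    linarith

end Pool.Agent.Y960.Weird
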