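import Mathlib
import Pool.Agent.Y960.Weird.Core
import Pool.Agent.Y960.Weird.Select

/-!
Every positive integer with a large sum of reciprocals of its prime factors is semiperfect; hence the
abundancy index is bounded on weird numbers.
-/

set_option autoImplicit false
set_option linter.unusedSectionVars false
set_option maxHeartbeats 1000000

namespace Pool.Agent.Y960.Weird

open Finset

lemma one_add_sum_le_prod {κ : Type*} [DecidableEq κ] (s : Finset κ) (f : κ → ℝ) (hf : ∀ i ∈ s, 0 ≤ f i) :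
    1 + ∑ i ∈ s, f i ≤ ∏ i ∈ s, (1 + f i) := by
  induction s using Finset.induction_on with
  | empty => simp
  | insert a s ha ih =>
    have h1 := ih (fun i hi => hf i (mem_insert_of_mem hi))
    have h2 := hf a (mem_insert_self a s)
    have h3 : 0 ≤ ∑ i ∈ s, f i := sum_nonneg fun i hi => hf i (mem_insert_of_mem hi)
    rw [sum_insert ha, prod_insert ha]
    nlinarith

lemma numeric1 (u : ℕ) (hu : 250 ≤ u) : (4 * u + 4) ^ 2 * 2 ^ 10 ≤ 2 ^ u := by
  induction u, hu using Nat.le_induction with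
  | base => norm_num
  | succ u hu ih =>
    have h1 : (4 * (u + 1) + 4) ^ 2 ≤ 2 * (4 * u + 4) ^ 2 := by nlinarith
    calc (4 * (u + 1) + 4) ^ 2 * 2 ^ 10 ≤ (2 * (4 * u + 4) ^ 2) * 2 ^ 10 := Nat.mul_le_mul_right _ h1
      _ = 2 * ((4 * u + 4) ^ 2 * 2 ^ 10) := by ring
      _ ≤ 2 * 2 ^ u := Nat.mul_le_mul_left _ ih
      _ = 2 ^ (u + 1) := by ring

lemma numeric2 (r nb : ℕ) (hr : 1000 ≤ r) (h : 2 ^ r ≤ r ^ 2 * nb) :
    2 ^ (r - r / 4 + 10) ≤ nb := by
  have hu : 250 ≤ r / 4 := by omega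
  have h1 := numeric1 (r / 4) hu
  have h2 : r ^ 2 ≤ (4 * (r / 4) + 4) ^ 2 := Nat.pow_le_pow_left (by omega) 2
  have h3 : r ^ 2 * 2 ^ 10 ≤ 2 ^ (r / 4) := (Nat.mul_le_mul_right _ h2).trans h1
  have h4 : 2 ^ r = 2 ^ (r - r / 4) * 2 ^ (r / 4) := by
    rw [← pow_add]; congr 1; omega
  have h5 : r ^ 2 * 2 ^ (r - r / 4 + 10) ≤ r ^ 2 * nb := by
    calc r ^ 2 * 2 ^ (r - r / 4 + 10) = 2 ^ (r - r / 4) * (r ^ 2 * 2 ^ 10) := by rw [pow_add]; ring
      _ ≤ 2 ^ (r - r / 4) * 2 ^ (r / 4) := Nat.mul_le_mul_left _ h3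
      _ = 2 ^ r := h4.symm
      _ ≤ _ := h
  exact Nat.le_of_mul_le_mul_left h5 (by positivity)

lemma numeric3 (r : ℕ) (hr : 1000 ≤ r) : 100 * (r + 1) ≤ 2 ^ (r / 4) := by
  have h1 := numeric1 (r / 4) (by omega)
  have h2 : 100 * (r + 1) ≤ (4 * (r / 4) + 4) ^ 2 * 2 ^ 10 := by
    have : r + 1 ≤ 4 * (r / 4) + 4 := by omega
    nlinarith
  exact h2.trans h1

lemma numeric_choose (r k : ℕ) (hr : 1000 ≤ r) (hk : 2 ^ (r - r / 4 + 10) ≤ k) :
    32 * (2 * 2 ^ r) ^ 4 ≤ k.choose 8 := by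
  have h1 : ((k + 1 - 8 : ℕ) : ℝ) ^ 8 / (Nat.factorial 8 : ℕ) ≤ k.choose 8 := Nat.pow_le_choose 8 k
  have h2 : 2 ^ (r - r / 4 + 9) ≤ k + 1 - 8 := by
    have e : 2 ^ (r - r / 4 + 10) = 2 ^ (r - r / 4 + 9) + 2 ^ (r - r / 4 + 9) := by ring
    have e2 : 2 ^ 4 ≤ 2 ^ (r - r / 4 + 9) := Nat.pow_le_pow_right (by norm_num) (by omega)
    norm_num at e2
    omega
  have h3 : ((2 : ℝ) ^ (r - r / 4 + 9)) ^ 8 ≤ ((k + 1 - 8 : ℕ) : ℝ) ^ 8 := by
    apply pow_le_pow_left₀ (by positivity)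
    exact_mod_cast h2
  have hf : ((Nat.factorial 8 : ℕ) : ℝ) ≤ 2 ^ 16 := by
    norm_num [Nat.factorial]
  have hf0 : (0 : ℝ) < ((Nat.factorial 8 : ℕ) : ℝ) := by
    norm_num [Nat.factorial]
  rw [div_le_iff₀ hf0] at h1
  have hch0 : (0 : ℝ) ≤ (k.choose 8 : ℝ) := Nat.cast_nonneg _
  have h4 : ((2 : ℝ) ^ (r - r / 4 + 9)) ^ 8 ≤ (k.choose 8 : ℝ) * 2 ^ 16 :=
    h3.trans (h1.trans (mul_le_mul_of_nonneg_left hf hch0))
  have h5 : (32 : ℝ) * (2 * 2 ^ r) ^ 4 * 2 ^ 16 ≤ ((2 : ℝ) ^ (r - r / 4 + 9)) ^ 8 := by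
    have e1 : (32 : ℝ) * (2 * 2 ^ r) ^ 4 * 2 ^ 16 = 2 ^ (4 * r + 25) := by
      rw [pow_add, pow_mul']
      ring
    rw [e1, ← pow_mul]
    apply pow_le_pow_right₀ (by norm_num)
    omega
  have h6 : (32 : ℝ) * (2 * 2 ^ r) ^ 4 ≤ k.choose 8 := by
    have := h5.trans h4
    exact le_of_mul_le_mul_right this (by positivity)
  exact_mod_cast h6

lemma numeric_choose2 (r l c nb : ℕ) (hr : 1000 ≤ r) (hnb : 2 ^ (r - r / 4 + 10) ≤ nb)
    (h100 : 100 * (r + 1) ≤ 2 ^ (r / 4)) (hc : c < 17 * (r + 1) + 1) (hl : nb - c ≤ l) :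
    4 * 2 ^ r ≤ l.choose 2 := by
  have h6 : 2 ^ (r - r / 4 + 10) = 2 ^ (r - r / 4 + 9) + 2 ^ (r - r / 4 + 9) := by ring
  have h7 : 2 ^ (r / 4) ≤ 2 ^ (r - r / 4 + 9) := Nat.pow_le_pow_right (by norm_num) (by omega)
  have h11 : 16 * 2 ^ r ≤ 2 ^ (r - r / 4 + 9) * 2 ^ (r - r / 4 + 9) := by
    rw [← pow_add]
    calc 16 * 2 ^ r = 2 ^ (4 + r) := by rw [pow_add]; norm_num
      _ ≤ _ := Nat.pow_le_pow_right (by norm_num) (by omega)
  have hy2 : 2 ^ 1 ≤ 2 ^ (r - r / 4 + 9) := Nat.pow_le_pow_right (by norm_num) (by omega)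
  generalize 2 ^ (r - r / 4 + 9) = y at *
  have h8 : y ≤ l := by omega
  have h9 : y.choose 2 ≤ l.choose 2 := Nat.choose_le_choose 2 h8
  refine le_trans ?_ h9
  rw [Nat.choose_two_right]
  have h10 : 8 * 2 ^ r ≤ y * (y - 1) := by
    obtain ⟨y', hy'⟩ : ∃ y', y = y' + 1 := ⟨y - 1, by omega⟩
    rw [hy', Nat.add_sub_cancel]
    rw [hy'] at h11
    nlinarith
  omega

theorem exists_semiperfect (P : Finset ℕ) (hP : ∀ p ∈ P, p.Prime)
    (hlev : ∀ p ∈ P, 1000 ≤ Nat.log 2 p) (hsum : 4 ≤ ∑ p ∈ P, (1 : ℝ) / p)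
    (p₀ : ℕ) (hp₀ : p₀.Prime) (hp₀P : p₀ ∉ P) (hp₀le : ∀ p ∈ P, p₀ ≤ p) (h21 : 21 ≤ p₀) :
    ∃ N, N ∣ p₀ * ∏ p ∈ P, p ∧ ∃ s ⊆ N.properDivisors, ∑ d ∈ s, d = N := by
  obtain ⟨r, hr, Q, hQP, hQ2, hQtop, hQlow, hQm1, hQm2⟩ :=
    selection P hP 1000 (by norm_num) hlev hsum
  set nb := (Q.filter (fun q => 2 ^ r < q)).card with hnb
  have hnb1 : 2 ^ (r - r / 4 + 10) ≤ nb := numeric2 r nb hr hQtop
  have h100 := numeric3 r hr
  have hQp : ∀ q ∈ Q, q.Prime := fun q hq => hP q (hQP hq)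
  have hk1 : nb ≤ Q.card := card_le_card (filter_subset _ _)
  have hbig : 2 ^ (r / 4) * 2 ^ 10 ≤ 2 ^ (r - r / 4 + 10) := by
    rw [← pow_add]
    exact Nat.pow_le_pow_right (by norm_num) (by omega)
  have hbig2 : 102400 * (r + 1) ≤ nb := by omega
  -- the index type
  let p : {x // x ∈ Q} → ℕ := fun i => i.1
  have hp : ∀ i, (p i).Prime := fun i => hQp i.1 i.2
  have hinj : Function.Injective p := Subtype.val_injective
  have hcardι : Fintype.card {x // x ∈ Q} = Q.card := Fintype.card_coe Q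
  have hX : ∀ i, p i ≤ 2 * 2 ^ r := fun i => hQ2 i.1 i.2
  set N := ee p univ with hN
  have hNpos : 0 < N := ee_pos p hp univ
  have hNQ : N = ∏ q ∈ Q, q := by
    rw [hN]; unfold ee
    exact prod_coe_sort Q (fun q => q)
  have hN2k : 2 ^ Q.card ≤ N := by
    have := pow_card_le_prod (univ : Finset {x // x ∈ Q}) p 2 (fun i _ => (hp i).two_le)
    rw [card_univ, hcardι] at this
    exact this
  set S := ∑ A : Finset {x // x ∈ Q}, ee p A with hS
  have hSprod : (S : ℝ) = N * ∏ q ∈ Q, (1 + (1 : ℝ) / q) := by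
    have e1 : S = ∏ i : {x // x ∈ Q}, (1 + p i) := by
      rw [prod_one_add, hS, powerset_univ]
      rfl
    rw [e1, hNQ]
    push_cast
    rw [← prod_mul_distrib]
    rw [show (∏ i : {x // x ∈ Q}, (1 + (p i : ℝ))) = ∏ q ∈ Q, (1 + (q : ℝ)) from
      prod_coe_sort Q (fun q => (1 + (q : ℝ)))]
    apply prod_congr rfl
    intro q hq
    have : (0 : ℝ) < q := by exact_mod_cast (hQp q hq).pos
    field_simp
    ring
  have hprodle : ∏ q ∈ Q, (1 + (1 : ℝ) / q) ≤ 21 := by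
    calc ∏ q ∈ Q, (1 + (1 : ℝ) / q) ≤ ∏ q ∈ Q, Real.exp ((1 : ℝ) / q) := by
          apply prod_le_prod
          · intros; positivity
          · intro q _
            have := Real.add_one_le_exp ((1 : ℝ) / q)
            linarith
      _ = Real.exp (∑ q ∈ Q, (1 : ℝ) / q) := (Real.exp_sum _ _).symm
      _ ≤ Real.exp 3 := Real.exp_le_exp.2 hQm2
      _ ≤ 21 := by
          have e1 : Real.exp 3 = Real.exp 1 ^ 3 := by rw [← Real.exp_nat_mul]; norm_num
          rw [e1]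
          have e2 := Real.exp_one_lt_d9
          have e3 : Real.exp 1 ^ 3 ≤ (2.7182818286 : ℝ) ^ 3 :=
            pow_le_pow_left₀ (Real.exp_pos _).le e2.le 3
          refine e3.trans ?_
          norm_num
  have hprodge : (5 / 2 : ℝ) ≤ ∏ q ∈ Q, (1 + (1 : ℝ) / q) := by
    have := one_add_sum_le_prod Q (fun q => (1 : ℝ) / q) (fun _ _ => by positivity)
    linarith
  have hNR : (0 : ℝ) < N := by exact_mod_cast hNpos
  have hS21 : S ≤ 21 * N := by
    have : (S : ℝ) ≤ 21 * N := by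
      rw [hSprod, mul_comm]
      exact mul_le_mul_of_nonneg_right hprodle hNR.le
    exact_mod_cast this
  have hS2 : 2 * N ≤ S := by
    have : (2 * N : ℝ) ≤ S := by
      rw [hSprod]
      nlinarith
    exact_mod_cast this
  have hZ1 : 1 ≤ 2 ^ r := Nat.one_le_two_pow
  have hZbig : 2 ^ 10 ≤ 2 ^ r := Nat.pow_le_pow_right (by norm_num) (by omega)
  have hpow : ∀ m, (2 * 2 ^ r) ^ m = 2 ^ (m * (r + 1)) := by
    intro m
    rw [show 2 * 2 ^ r = 2 ^ (r + 1) by ring, ← pow_mul, mul_comm]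
  have hXN : ∀ m, m ≤ 1000 → (2 * 2 ^ r) ^ m ≤ N := by
    intro m hm
    rw [hpow]
    refine le_trans ?_ hN2k
    apply Nat.pow_le_pow_right (by norm_num)
    calc m * (r + 1) ≤ 1000 * (r + 1) := Nat.mul_le_mul_right _ hm
      _ ≤ Q.card := by omega
  have hQne : Q.Nonempty := by
    rw [← card_pos]; omega
  have hp₀X : p₀ ≤ 2 * 2 ^ r := by
    obtain ⟨q, hq⟩ := hQne
    exact (hp₀le q (hQP hq)).trans (hQ2 q hq)
  have hcore := semiperfect_core p hp hinj (j := 8) (Z := 2 ^ r) (D := 2 * (2 * 2 ^ r) ^ 17)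
    (L := N / (2 * 2 ^ r) ^ (2 * 8)) (p₀ := p₀) hp₀ ?_ hX hZ1 ?_ ?_ ?_ ?_ ?_ ?_ ?_ ?_ ?_ ?_ ?_
  · obtain ⟨s, hs1, hs2⟩ := hcore
    refine ⟨p₀ * N, ?_, s, hs1, hs2⟩
    apply Nat.mul_dvd_mul_left
    rw [hNQ]
    exact prod_dvd_prod_of_subset _ _ _ hQP
  · intro i h
    exact hp₀P (h ▸ hQP i.2)
  · rw [hcardι]; omega
  · -- X ^ 24 < 2 X N
    have h1 := hXN (3 * 8) (by norm_num)
    rw [← hN]
    nlinarith
  · rw [hcardι]
    exact numeric_choose r _ hr (hnb1.trans hk1)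
  · rw [← hS, ← hN]
    have h1 : 4 * (S + 1) ≤ 88 * N := by omega
    have h2 : 88 ≤ (2 * 2 ^ r) ^ 2 := by nlinarith
    exact h1.trans (Nat.mul_le_mul_right _ h2)
  · rw [hcardι]
    have h1 : Q ⊆ Finset.Icc 1 (2 * 2 ^ r) := by
      intro q hq
      rw [mem_Icc]
      exact ⟨(hQp q hq).one_lt.le, hQ2 q hq⟩
    have := card_le_card h1
    rwa [Nat.card_Icc, Nat.add_sub_cancel] at this
  · rw [← hN]; exact Nat.div_mul_le_self _ _
  · -- D
    rw [← hN]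
    set Y := (2 * 2 ^ r) ^ (2 * 8) with hY
    have hY0 : 0 < Y := by positivity
    have hY1 : Y ≤ N := hXN (2 * 8) (by norm_num)
    have h1 : 1 ≤ N / Y := (Nat.one_le_div_iff hY0).2 hY1
    have h2 : N < (N / Y + 1) * Y := by
      have := Nat.lt_div_mul_add (a := N) hY0
      linarith
    have h3 : N ≤ 2 * (N / Y) * Y := by nlinarith
    calc p₀ * N ≤ (2 * 2 ^ r) * (2 * (N / Y) * Y) := Nat.mul_le_mul hp₀X h3
      _ = N / Y * (2 * (2 * 2 ^ r) ^ 17) := by rw [hY]; ring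
  · -- low primes
    intro i hi
    have h1 := hQlow i.1 i.2 hi
    refine h1.trans (le_of_eq ?_)
    congr 1
    rw [sum_filter, sum_filter]
    exact (sum_coe_sort Q (fun q' => if (i : ℕ) < q' then (1 : ℝ) / q' else 0)).symm
  · -- high primes
    intro C hC
    have h1 : 2 ^ C.card ≤ ee p C := pow_card_le_prod C p 2 (fun i _ => (hp i).two_le)
    have h2 : 2 ^ C.card < 2 ^ (17 * (r + 1) + 1) := by
      calc 2 ^ C.card ≤ ee p C := h1
        _ < 2 * (2 * 2 ^ r) ^ 17 := hC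
        _ = 2 ^ (17 * (r + 1) + 1) := by rw [hpow]; ring
    have h3 : C.card < 17 * (r + 1) + 1 := (Nat.pow_lt_pow_iff_right (by norm_num)).1 h2
    have h4 : ((univ : Finset {x // x ∈ Q}).filter (fun i => 2 ^ r < p i)).card = nb := by
      rw [hnb, card_filter, card_filter]
      exact sum_coe_sort Q (fun q' => if 2 ^ r < q' then 1 else 0)
    have h5 := le_card_sdiff C ((univ : Finset {x // x ∈ Q}).filter (fun i => 2 ^ r < p i))
    rw [h4] at h5
    exact numeric_choose2 r _ C.card nb hr hnb1 h100 h3 h5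
  · exact hS2
  · rw [← hN]
    exact hS21.trans (Nat.mul_le_mul_right _ h21)

lemma semiperfect_of_dvd {N m : ℕ} (hm : 0 < m) (hNm : N ∣ m)
    (h : ∃ s ⊆ N.properDivisors, ∑ d ∈ s, d = N) : ∃ s ⊆ m.properDivisors, ∑ d ∈ s, d = m := by
  obtain ⟨s, hs, hsum⟩ := h
  obtain ⟨l, rfl⟩ := hNm
  have hl : 0 < l := Nat.pos_of_mul_pos_left hm
  refine ⟨s.image (fun d => d * l), ?_, ?_⟩
  · intro x hx
    rw [mem_image] at hx
    obtain ⟨d, hd, rfl⟩ := hx
    have h1 := Nat.mem_properDivisors.1 (hs hd)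
    rw [Nat.mem_properDivisors]
    exact ⟨Nat.mul_dvd_mul_right h1.1 l, Nat.mul_lt_mul_of_pos_right h1.2 hl⟩
  · rw [sum_image (fun a _ b _ h => Nat.eq_of_mul_eq_mul_right hl h), ← sum_mul, hsum]

lemma sigma_le (m : ℕ) (hm : 0 < m) :
    ((∑ i ∈ m.divisors, i : ℕ) : ℝ) / (m : ℝ) ≤ Real.exp (2 * ∑ p ∈ m.primeFactors, (1 : ℝ) / p) := by
  have hmR : (0 : ℝ) < m := by exact_mod_cast hm
  rw [div_le_iff₀ hmR, Nat.sum_divisors hm.ne']
  have h1 : (m : ℝ) = ∏ p ∈ m.primeFactors, (p : ℝ) ^ (m.factorization p) := by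
    have := Nat.prod_factorization_pow_eq_self hm.ne'
    conv_lhs => rw [← this]
    rw [Finsupp.prod, Nat.support_factorization]
    push_cast
    rfl
  conv_rhs => rw [h1]
  rw [mul_sum, Real.exp_sum, ← prod_mul_distrib]
  push_cast
  apply prod_le_prod
  · intro p _
    positivity
  · intro p hp
    have hpp := (Nat.mem_primeFactors.1 hp).1
    have hp2 : (2 : ℝ) ≤ p := by exact_mod_cast hpp.two_le
    have h2 : ∀ v : ℕ, ∑ k ∈ Finset.range (v + 1), (p : ℝ) ^ k ≤ (1 + 2 / p) * p ^ v := by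
      intro v
      induction v with
      | zero => simp; positivity
      | succ v ih =>
        rw [sum_range_succ]
        have e1 : (1 + 2 / (p : ℝ)) * p ^ (v + 1) = p ^ (v + 1) + 2 * p ^ v := by
          field_simp
          ring
        have e2 : (1 + 2 / (p : ℝ)) * p ^ v ≤ 2 * p ^ v := by
          apply mul_le_mul_of_nonneg_right _ (by positivity)
          have : 2 / (p : ℝ) ≤ 1 := by rw [div_le_one (by linarith)]; exact hp2
          linarith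
        rw [e1]
        linarith
    refine (h2 _).trans ?_
    apply mul_le_mul_of_nonneg_right _ (by positivity)
    have := Real.add_one_le_exp (2 * ((1 : ℝ) / p))
    have e : 2 / (p : ℝ) = 2 * (1 / p) := by ring
    rw [e]
    linarith

theorem main : ∃ C : ℝ, ∀ m : ℕ, 0 < m →
      (¬ ∃ s ⊆ m.properDivisors, ∑ i ∈ s, i = m) →
      ((∑ i ∈ m.divisors, i : ℕ) : ℝ) / (m : ℝ) ≤ C := by
  refine ⟨Real.exp (2 * (2 ^ 1000 + 5)), fun m hm hw => ?_⟩
  refine (sigma_le m hm).trans (Real.exp_le_exp.2 ?_)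
  apply mul_le_mul_of_nonneg_left _ (by norm_num)
  by_contra hcon
  push Not at hcon
  apply hw
  have hsplit := sum_filter_add_sum_filter_not m.primeFactors (fun p => 1000 ≤ Nat.log 2 p)
    (fun p => (1 : ℝ) / p)
  have hsmall : ∑ p ∈ m.primeFactors.filter (fun p => ¬ 1000 ≤ Nat.log 2 p), (1 : ℝ) / p ≤ 2 ^ 1000 := by
    have h1 : m.primeFactors.filter (fun p => ¬ 1000 ≤ Nat.log 2 p) ⊆ Finset.range (2 ^ 1000) := by
      intro p hp
      rw [mem_filter] at hp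
      rw [mem_range]
      have := hp.2
      rw [not_le] at this
      exact (Nat.log_lt_iff_lt_pow (by norm_num) (Nat.mem_primeFactors.1 hp.1).1.ne_zero).1 this
    calc ∑ p ∈ m.primeFactors.filter (fun p => ¬ 1000 ≤ Nat.log 2 p), (1 : ℝ) / p
        ≤ ∑ p ∈ m.primeFactors.filter (fun p => ¬ 1000 ≤ Nat.log 2 p), (1 : ℝ) := by
          apply sum_le_sum
          intro p hp
          rw [mem_filter] at hp
          have h2 : (1 : ℝ) ≤ p := by exact_mod_cast (Nat.mem_primeFactors.1 hp.1).1.one_lt.le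
          rw [div_le_one (by linarith)]
          exact h2
      _ = ((m.primeFactors.filter (fun p => ¬ 1000 ≤ Nat.log 2 p)).card : ℝ) := by simp
      _ ≤ ((2 ^ 1000 : ℕ) : ℝ) := by
          have := card_le_card h1
          rw [card_range] at this
          exact_mod_cast this
      _ = 2 ^ 1000 := by push_cast; rfl
  set PB := m.primeFactors.filter (fun p => 1000 ≤ Nat.log 2 p) with hPB
  have hbig : 5 < ∑ p ∈ PB, (1 : ℝ) / p := by linarith
  have hne : PB.Nonempty := by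
    rw [nonempty_iff_ne_empty]
    intro h
    rw [h, sum_empty] at hbig
    linarith
  have hprime : ∀ p ∈ PB, p.Prime := fun p hp => (Nat.mem_primeFactors.1 (mem_filter.1 hp).1).1
  have hlog : ∀ p ∈ PB, 1000 ≤ Nat.log 2 p := fun p hp => (mem_filter.1 hp).2
  set p₀ := PB.min' hne with hp₀
  have hp₀mem : p₀ ∈ PB := min'_mem _ _
  have h21 : 21 ≤ p₀ := by
    have h1 := hlog p₀ hp₀mem
    have h2 : 2 ^ Nat.log 2 p₀ ≤ p₀ := Nat.pow_log_le_self 2 (hprime p₀ hp₀mem).ne_zero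
    have h3 : 2 ^ 5 ≤ 2 ^ Nat.log 2 p₀ := Nat.pow_le_pow_right (by norm_num) (by omega)
    omega
  have hsum : 4 ≤ ∑ p ∈ PB.erase p₀, (1 : ℝ) / p := by
    have h1 := add_sum_erase PB (fun p => (1 : ℝ) / p) hp₀mem
    have h2 : (1 : ℝ) / p₀ ≤ 1 := by
      have h3 : (21 : ℝ) ≤ p₀ := by exact_mod_cast h21
      rw [div_le_one (by linarith)]
      linarith
    linarith
  obtain ⟨N, hN, hs⟩ := exists_semiperfect (PB.erase p₀) (fun p hp => hprime p (mem_of_mem_erase hp))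
    (fun p hp => hlog p (mem_of_mem_erase hp)) hsum p₀ (hprime p₀ hp₀mem) (notMem_erase _ _)
    (fun p hp => min'_le _ _ (mem_of_mem_erase hp)) h21
  apply semiperfect_of_dvd hm _ hs
  refine hN.trans ?_
  have h1 : p₀ * ∏ p ∈ PB.erase p₀, p = ∏ p ∈ PB, p := mul_prod_erase PB (fun p => p) hp₀mem
  rw [h1]
  exact (prod_dvd_prod_of_subset _ _ _ (filter_subset _ _)).trans (Nat.prod_primeFactors_dvd m)

end Pool.Agent.Y960.Weird
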